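import Pool.Agent.helper37.P2.SpecA

/-!
# Row p2:CHN (chain rule for the Levi form)
-/

set_option autoImplicit false

open scoped ContDiff Topology
open MeasureTheory Filter Set Metric MvPolynomial Pool.Agent.helper37.QA

namespace Pool.Agent.P2

section
variable {V : Type} [NormedAddCommGroup V] [NormedSpace ℂ V] [NormedSpace ℝ V] [IsScalarTower ℝ ℂ V]
  [CompleteSpace V]

/-- second derivative of `g ∘ h` along the real direction `v`, `h` holomorphic -/
theorem CHN_second (h : ℂ → V) (z0 : ℂ) (g : V → ℝ) (hh : ∀ᶠ z in 𝓝 z0, DifferentiableAt ℂ h z)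
    (hg : ContDiffAt ℝ 2 g (h z0)) : ∃ h2 : V, ∀ v : ℂ,
    fderiv ℝ (fderiv ℝ (fun z => g (h z))) z0 v v =
      fderiv ℝ (fderiv ℝ g) (h z0) (v • deriv h z0) (v • deriv h z0) +
        fderiv ℝ g (h z0) ((v * v) • h2) := by
  have hh0 : DifferentiableAt ℂ h z0 := hh.self_of_nhds
  have hhc : ContinuousAt h z0 := hh0.continuousAt
  -- first derivatives
  have hgd : ∀ᶠ y in 𝓝 (h z0), DifferentiableAt ℝ g y := by
    have h1 := hg.eventually (by simp)
    exact h1.mono fun y hy => hy.differentiableAt (by norm_num)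
  have hgd' : ∀ᶠ z in 𝓝 z0, DifferentiableAt ℝ g (h z) := hhc.eventually hgd
  have hfd : ∀ᶠ z in 𝓝 z0, fderiv ℝ h z = (fderiv ℂ h z).restrictScalars ℝ :=
    hh.mono fun z hz => (hz.hasFDerivAt.restrictScalars ℝ).fderiv
  have hcomp : fderiv ℝ (fun z => g (h z)) =ᶠ[𝓝 z0]
      fun z => (fderiv ℝ g (h z)).comp (fderiv ℝ h z) := by
    filter_upwards [hh, hgd'] with z hz hz'
    exact fderiv_comp z hz' (hz.restrictScalars ℝ)
  -- the derivative of `h` is holomorphic
  obtain ⟨U, hU, hUo, hzU⟩ := _root_.eventually_nhds_iff.1 hh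
  have hdU : DifferentiableOn ℂ h U := fun z hz => (hU z hz).differentiableWithinAt
  have hd2 : DifferentiableAt ℂ (deriv h) z0 :=
    (hdU.deriv hUo).differentiableAt (hUo.mem_nhds hzU)
  -- the derivative of `z ↦ fderiv ℝ h z`
  have hfh : ContDiffAt ℂ 2 h z0 := by
    have h1 : AnalyticAt ℂ h z0 := hdU.analyticAt (hUo.mem_nhds hzU)
    exact h1.contDiffAt
  have hfh' : ContDiffAt ℝ 2 h z0 := hfh.restrict_scalars ℝ
  have hd : DifferentiableAt ℝ (fderiv ℝ h) z0 :=
    (hfh'.fderiv_right (m := 1) (by norm_num)).differentiableAt (by norm_num)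
  have hc0 : DifferentiableAt ℝ (fderiv ℝ g) (h z0) :=
    (hg.fderiv_right (m := 1) (by norm_num)).differentiableAt (by norm_num)
  have hc : HasFDerivAt (fun z => fderiv ℝ g (h z))
      ((fderiv ℝ (fderiv ℝ g) (h z0)).comp (fderiv ℝ h z0)) z0 :=
    hc0.hasFDerivAt.comp z0 (hh0.restrictScalars ℝ).hasFDerivAt
  have hprod := hc.clm_comp hd.hasFDerivAt
  have hval : ∀ v : ℂ, fderiv ℝ h z0 v = v • deriv h z0 := by
    intro v
    rw [hfd.self_of_nhds]
    show fderiv ℂ h z0 v = v • deriv h z0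
    rw [← fderiv_apply_one_eq_deriv, ← map_smul, smul_eq_mul, mul_one]
  refine ⟨deriv (deriv h) z0, fun v => ?_⟩
  rw [hcomp.fderiv_eq, hprod.fderiv]
  have hsec : fderiv ℝ (fderiv ℝ h) z0 v v = (v * v) • deriv (deriv h) z0 := by
    have h1 : HasFDerivAt (fun z => fderiv ℝ h z v)
        ((ContinuousLinearMap.apply ℝ V v).comp (fderiv ℝ (fderiv ℝ h) z0)) z0 :=
      (ContinuousLinearMap.apply ℝ V v).hasFDerivAt.comp z0 hd.hasFDerivAt
    have h2 : (fun z => fderiv ℝ h z v) =ᶠ[𝓝 z0] fun z => v • deriv h z := by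
      filter_upwards [hfd] with z hz
      rw [hz]
      show fderiv ℂ h z v = v • deriv h z
      rw [← fderiv_apply_one_eq_deriv, ← map_smul, smul_eq_mul, mul_one]
    have h3 : HasFDerivAt (fun z => v • deriv h z)
        ((v • fderiv ℂ (deriv h) z0).restrictScalars ℝ) z0 :=
      (hd2.hasFDerivAt.const_smul v).restrictScalars ℝ
    have h4 := (h1.congr_of_eventuallyEq h2.symm).unique h3
    have h5 := congrArg (fun L : ℂ →L[ℝ] V => L v) h4
    have h6 : fderiv ℝ (fderiv ℝ h) z0 v v = v • fderiv ℂ (deriv h) z0 v := h5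
    rw [h6, ← smul_smul]
    congr 1
    rw [← fderiv_apply_one_eq_deriv, ← map_smul, smul_eq_mul, mul_one]
  show fderiv ℝ g (h z0) (fderiv ℝ (fderiv ℝ h) z0 v v) +
    fderiv ℝ (fderiv ℝ g) (h z0) (fderiv ℝ h z0 v) (fderiv ℝ h z0 v) = _
  rw [hsec, hval, add_comm]

theorem CHN_lap (h : ℂ → V) (z0 : ℂ) (g : V → ℝ) (hh : ∀ᶠ z in 𝓝 z0, DifferentiableAt ℂ h z)
    (hg : ContDiffAt ℝ 2 g (h z0)) :
    lap (fun z => g (h z)) z0 = (1 / 4) * (fderiv ℝ (fderiv ℝ g) (h z0) (deriv h z0) (deriv h z0) +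
      fderiv ℝ (fderiv ℝ g) (h z0) (Complex.I • deriv h z0) (Complex.I • deriv h z0)) := by
  obtain ⟨h2, hh2⟩ := CHN_second h z0 g hh hg
  unfold lap
  rw [iteratedFDeriv_two_apply, iteratedFDeriv_two_apply]
  have e1 := hh2 1
  have e2 := hh2 Complex.I
  rw [one_mul, one_smul, one_smul] at e1
  rw [Complex.I_mul_I, neg_smul, one_smul, map_neg] at e2
  show (1 / 4) * (fderiv ℝ (fderiv ℝ (fun z => g (h z))) z0 1 1 +
    fderiv ℝ (fderiv ℝ (fun z => g (h z))) z0 Complex.I Complex.I) = _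
  rw [e1, e2]
  ring

theorem CHN_lev (g : V → ℝ) (x a : V) (hg : ContDiffAt ℝ 2 g x) :
    lev g x a = (1 / 4) * (fderiv ℝ (fderiv ℝ g) x a a +
      fderiv ℝ (fderiv ℝ g) x (Complex.I • a) (Complex.I • a)) := by
  unfold lev
  have hd : ∀ t : ℂ, HasDerivAt (fun t : ℂ => x + t • a) a t := by
    intro t
    have h1 := ((hasDerivAt_id t).smul_const a).const_add x
    rwa [one_smul] at h1
  have h0 : x + (0 : ℂ) • a = x := by rw [zero_smul, add_zero]
  have h1 := CHN_lap (fun t : ℂ => x + t • a) 0 g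
    (Eventually.of_forall fun t => (hd t).differentiableAt) (by
      show ContDiffAt ℝ 2 g (x + (0 : ℂ) • a)
      rw [h0]
      exact hg)
  rw [(hd 0).deriv] at h1
  rw [h0] at h1
  exact h1

end

theorem CHN : CHN_stmt := by
  refine ⟨?_, ?_, ?_⟩
  · intro Ω Φ g p a hΩ hΦ hp hg
    rw [CHN_lev g (Φ p) (fderiv ℂ Φ p a) hg]
    unfold lev
    have hlin : ∀ t : ℂ, HasDerivAt (fun t : ℂ => p + t • a) a t := by
      intro t
      have h1 := ((hasDerivAt_id t).smul_const a).const_add p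
      rwa [one_smul] at h1
    have h0 : p + (0 : ℂ) • a = p := by rw [zero_smul, add_zero]
    have hev : ∀ᶠ t : ℂ in 𝓝 0, p + t • a ∈ Ω := by
      have hc : ContinuousAt (fun t : ℂ => p + t • a) 0 := (hlin 0).continuousAt
      apply hc.eventually_mem
      show Ω ∈ 𝓝 (p + (0 : ℂ) • a)
      rw [h0]
      exact hΩ.mem_nhds hp
    have hΦd : ∀ q ∈ Ω, DifferentiableAt ℂ Φ q := fun q hq => hΦ.differentiableAt (hΩ.mem_nhds hq)
    have hder : HasDerivAt (fun t : ℂ => Φ (p + t • a)) (fderiv ℂ Φ p a) 0 := by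
      have h1 : HasFDerivAt Φ (fderiv ℂ Φ p) (p + (0 : ℂ) • a) := by
        rw [h0]
        exact (hΦd p hp).hasFDerivAt
      exact h1.comp_hasDerivAt 0 (hlin 0)
    have h1 := CHN_lap (fun t : ℂ => Φ (p + t • a)) 0 g (by
      filter_upwards [hev] with t ht
      exact (hΦd _ ht).comp t (hlin t).differentiableAt) (by
      show ContDiffAt ℝ 2 g (Φ (p + (0 : ℂ) • a))
      rw [h0]
      exact hg)
    rw [hder.deriv] at h1
    rw [h0] at h1
    exact h1
  · intro Ω Φ g p hΩ hΦ hp hg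
    rw [CHN_lev g (Φ p) (deriv Φ p) hg]
    refine CHN_lap Φ p g ?_ hg
    filter_upwards [hΩ.mem_nhds hp] with z hz
    exact hΦ.differentiableAt (hΩ.mem_nhds hz)
  · intro g p
    constructor
    · unfold lev lap
      have h1 : (fun t : ℂ => g (p + t • ((1, 0) : ℂ × ℂ))) =
          fun t : ℂ => (fun s : ℂ => g (s, p.2)) (p.1 + t) := by
        funext t
        show g (p + t • ((1, 0) : ℂ × ℂ)) = g (p.1 + t, p.2)
        congr 1
        refine Prod.ext ?_ ?_
        · simp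
        · simp
      have h2 := iteratedFDeriv_comp_add_left (𝕜 := ℝ) (f := fun s : ℂ => g (s, p.2)) 2 p.1 (0 : ℂ)
      rw [add_zero] at h2
      rw [h1, h2]
    · unfold lev lap
      have h1 : (fun t : ℂ => g (p + t • ((0, 1) : ℂ × ℂ))) =
          fun t : ℂ => (fun s : ℂ => g (p.1, s)) (p.2 + t) := by
        funext t
        show g (p + t • ((0, 1) : ℂ × ℂ)) = g (p.1, p.2 + t)
        congr 1
        refine Prod.ext ?_ ?_
        · simp
        · simp
      have h2 := iteratedFDeriv_comp_add_left (𝕜 := ℝ) (f := fun s : ℂ => g (p.1, s)) 2 p.2 (0 : ℂ)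
      rw [add_zero] at h2
      rw [h1, h2]

end Pool.Agent.P2
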