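import Pool.Agent.helper43.P2.RIEc

/-!
# Row p2:RIE (from DCO ENC RAD)
-/

set_option autoImplicit false

open scoped ContDiff Topology ENNReal
open MeasureTheory Filter Set Metric MvPolynomial Pool.Agent.helper37.QA

namespace Pool.Agent.P2

theorem RIE_lev_cont {U : Set (PP 2)} (hU : IsOpen U) {Ψ : E3 → ℝ}
    (hΨ : ContDiffOn ℝ ∞ Ψ (cone U)) :
    ContinuousOn (fun p : E3 × E3 => lev Ψ p.1 p.2) (cone U ×ˢ univ) := by
  have hop : IsOpen (cone U) := cone_open hU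
  have h2 : ContDiffOn ℝ 2 Ψ (cone U) := by exact_mod_cast contDiffOn_infty.1 hΨ 2
  have hd1 : ContDiffOn ℝ 1 (fderiv ℝ Ψ) (cone U) := h2.fderiv_of_isOpen hop (by norm_num)
  have hd2 : ContDiffOn ℝ 0 (fderiv ℝ (fderiv ℝ Ψ)) (cone U) := hd1.fderiv_of_isOpen hop (by norm_num)
  have hc := hd2.continuousOn
  have hc1 : ContinuousOn (fun p : E3 × E3 => fderiv ℝ (fderiv ℝ Ψ) p.1) (cone U ×ˢ univ) :=
    hc.comp continuousOn_fst fun p hp => hp.1
  have hs : ContinuousOn (fun p : E3 × E3 => p.2) (cone U ×ˢ univ) := continuousOn_snd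
  have hI : ContinuousOn (fun p : E3 × E3 => Complex.I • p.2) (cone U ×ˢ univ) :=
    hs.const_smul Complex.I
  have e1 := (hc1.clm_apply hs).clm_apply hs
  have e2 := (hc1.clm_apply hI).clm_apply hI
  have e3 : ContinuousOn (fun p : E3 × E3 => (1 / 4 : ℝ) * (fderiv ℝ (fderiv ℝ Ψ) p.1 p.2 p.2 +
      fderiv ℝ (fderiv ℝ Ψ) p.1 (Complex.I • p.2) (Complex.I • p.2))) (cone U ×ˢ univ) :=
    continuousOn_const.mul (e1.add e2)
  refine e3.congr fun p hp => ?_
  exact CHN_lev Ψ p.1 p.2 (h2.contDiffAt (hop.mem_nhds hp.1))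

theorem RIE_single_cont (i j : Fin 3) :
    Continuous (fun p : E3 × E3 × E3 => (Pi.single i (p.2.2 j) : E3)) := by
  refine continuous_pi fun k => ?_
  by_cases h : k = i
  · subst h
    simp only [Pi.single_eq_same]
    exact (continuous_apply j).comp (continuous_snd.comp continuous_snd)
  · simp only [Pi.single_eq_of_ne h]
    exact continuous_const

section main
variable {d : ℕ} {f : Endo 2 d} {N : ℕ} {U : Set (PP 2)} {r : ℝ} {Z : ℂ → E3} {Ψ : E3 → ℝ} {B : ℝ}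

theorem RIE_en_cont (hG : Good0 f U) (hA : Adm f U N Ψ B) (i j : Fin 3) :
    ContinuousOn (fun p : E3 × E3 × E3 => en f N Ψ p.1 (Pi.single i (p.2.2 j)) p.2.1)
      (cone U ×ˢ univ) := by
  have hW : Continuous (fun p : E3 × E3 × E3 => p.1) := continuous_fst
  have hV : Continuous (fun p : E3 × E3 × E3 => p.2.1) := continuous_fst.comp continuous_snd
  have hY := RIE_single_cont i j
  have hc1 : Continuous (fun p : E3 × E3 × E3 => cc f N p.1 (Pi.single i (p.2.2 j))) :=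
    RIE_compc (fun q : E3 × E3 => cc f N q.1 q.2)
      (fun p : E3 × E3 × E3 => (p.1, (Pi.single i (p.2.2 j) : E3))) (RIE_cc_cont f N) (hW.prodMk hY)
  have hc2 : Continuous (fun p : E3 × E3 × E3 => cc f N p.1 p.2.1) :=
    RIE_compc (fun q : E3 × E3 => cc f N q.1 q.2)
      (fun p : E3 × E3 × E3 => (p.1, p.2.1)) (RIE_cc_cont f N) (hW.prodMk hV)
  have hE : Continuous (fun p : E3 × E3 × E3 => cc f N p.1 (Pi.single i (p.2.2 j)) • p.2.1 -
      cc f N p.1 p.2.1 • (Pi.single i (p.2.2 j) : E3)) := (hc1.smul hV).sub (hc2.smul hY)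
  have hl : ContinuousOn (fun p : E3 × E3 × E3 => lev Ψ p.1 (cc f N p.1 (Pi.single i (p.2.2 j)) • p.2.1 -
      cc f N p.1 p.2.1 • (Pi.single i (p.2.2 j) : E3))) (cone U ×ˢ univ) :=
    RIE_comp (fun q : E3 × E3 => lev Ψ q.1 q.2)
      (fun p : E3 × E3 × E3 => (p.1, cc f N p.1 (Pi.single i (p.2.2 j)) • p.2.1 -
        cc f N p.1 p.2.1 • (Pi.single i (p.2.2 j) : E3))) (cone U ×ˢ univ) (cone U ×ˢ univ)
      (RIE_lev_cont hG.1.1 hA.1) (hW.prodMk hE).continuousOn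
      (fun p hp => Set.mem_prod.2 ⟨hp.1, mem_univ _⟩)
  have hq : Continuous (fun p : E3 × E3 × E3 => pq (It f N p.1)) :=
    RIE_compc (fun W : E3 => pq (It f N W)) (fun p : E3 × E3 × E3 => p.1) (RIE_pq_cont f N) hW
  have hq2 : Continuous (fun p : E3 × E3 × E3 => 2 * (d : ℝ) ^ N * pq (It f N p.1) ^ 2) :=
    continuous_const.mul (hq.pow 2)
  by_cases hd : (d : ℝ) ^ N = 0
  · unfold en
    simp only [hd, mul_zero, zero_mul, div_zero]
    exact continuousOn_const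
  · unfold en
    refine hl.div hq2.continuousOn fun p hp => ?_
    exact mul_ne_zero (mul_ne_zero two_ne_zero hd) (pow_ne_zero 2 (RIE_pq_pos N hG hp.1).ne')

theorem RIE_en_nonneg (hA : Adm f U N Ψ B) {W : E3} (hW : W ∈ cone U) (X Y : E3) :
    0 ≤ en f N Ψ W X Y := by
  unfold en
  have h : cc f N W (cc f N W X • Y - cc f N W Y • X) = 0 := by
    rw [RIE_cc_lin]
    ring
  exact div_nonneg (hA.2.2.2 W hW _ h) (by positivity)

/-- energy on the perturbed discs -/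
noncomputable def RIE_F {d : ℕ} (f : Endo 2 d) (N : ℕ) (Z : ℂ → E3) (Ψ : E3 → ℝ) (i j : Fin 3) :
    M3 × ℂ → ℝ :=
  fun p => en f N Ψ (mv p.1 (Z p.2)) (Pi.single i (Z p.2 j)) (mv p.1 (deriv Z p.2))

theorem RIE_F_cont (hG : Good0 f U) (hR : Rad r (f.map '' closure U) U)
    (hZ : Dsc (f.map '' closure U) Z) (hA : Adm f U N Ψ B) (i j : Fin 3) :
    ContinuousOn (RIE_F f N Z Ψ i j) (RIE_O r) :=
  RIE_contO hR hZ (fun p => en f N Ψ p.1 (Pi.single i (p.2.2 j)) p.2.1) (RIE_en_cont hG hA i j)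

/-- its integral -/
noncomputable def RIE_K {d : ℕ} (f : Endo 2 d) (N : ℕ) (r : ℝ) (Z : ℂ → E3) (Ψ : E3 → ℝ) (i j : Fin 3)
    (A : M3) : ℝ :=
  ∫ z, eta z ^ 2 * RIE_ext r (RIE_F f N Z Ψ i j) (A, z)

theorem RIE_K_meas (hG : Good0 f U) (hR : Rad r (f.map '' closure U) U)
    (hZ : Dsc (f.map '' closure U) Z) (hA : Adm f U N Ψ B) (i j : Fin 3) :
    Measurable (RIE_K f N r Z Ψ i j) :=
  RIE_param (RIE_F_cont hG hR hZ hA i j)

theorem RIE_K_eq (i j : Fin 3) {A : M3} (hA : Near r A) :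
    RIE_K f N r Z Ψ i j A = ∫ z, eta z ^ 2 * RIE_F f N Z Ψ i j (A, z) :=
  integral_congr_ae (Eventually.of_forall fun z => RIE_ext_eq hA z)

theorem RIE_F_nonneg (hR : Rad r (f.map '' closure U) U) (hZ : Dsc (f.map '' closure U) Z)
    (hA : Adm f U N Ψ B) (i j : Fin 3) {A : M3} (hn : Near r A) (z : ℂ) :
    0 ≤ eta z ^ 2 * RIE_F f N Z Ψ i j (A, z) := by
  by_cases hz : z ∈ ball (0 : ℂ) 1
  · exact mul_nonneg (sq_nonneg _) (RIE_en_nonneg hA (RIE_mem hR hZ hn hz) _ _)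
  · rw [RIE_eta_zero hz, zero_mul]

theorem RIE_K_nonneg (hR : Rad r (f.map '' closure U) U) (hZ : Dsc (f.map '' closure U) Z)
    (hA : Adm f U N Ψ B) (i j : Fin 3) {A : M3} (hn : Near r A) : 0 ≤ RIE_K f N r Z Ψ i j A := by
  rw [RIE_K_eq i j hn]
  exact integral_nonneg fun z => RIE_F_nonneg hR hZ hA i j hn z

theorem RIE_K_bound (hr : 0 < r) (hG : Good0 f U) (hR : Rad r (f.map '' closure U) U)
    (hZ : Dsc (f.map '' closure U) Z) (hA : Adm f U N Ψ B) (i j : Fin 3) :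
    ∃ c, ∀ A, Near (r / 2) A → RIE_K f N r Z Ψ i j A ≤ c := by
  have hc : IsCompact (closedBall one3 (r / 2) ×ˢ tsupport (fun z : ℂ => eta z ^ 2)) :=
    (isCompact_closedBall _ _).prod RIE_eta_comp
  have hsub : closedBall one3 (r / 2) ×ˢ tsupport (fun z : ℂ => eta z ^ 2) ⊆ RIE_O r := by
    rintro ⟨A, z⟩ ⟨h1, h2⟩
    refine ⟨fun k l => ?_, DMS_eta.2 h2⟩
    have h3 : ‖A - one3‖ ≤ r / 2 := by
      rw [← dist_eq_norm]
      exact h1
    have h4 : ‖(A - one3) k l‖ ≤ ‖A - one3‖ :=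
      (norm_le_pi_norm ((A - one3) k) l).trans (norm_le_pi_norm (A - one3) k)
    have h5 : (A - one3) k l = A k l - one3 k l := rfl
    rw [h5] at h4
    show ‖A k l - one3 k l‖ < r
    linarith
  obtain ⟨c, hcb⟩ := hc.exists_bound_of_continuousOn ((RIE_F_cont hG hR hZ hA i j).mono hsub)
  refine ⟨∫ z, eta z ^ 2 * c, fun A hn => ?_⟩
  have hn' : Near r A := RIE_near_mono (by linarith) hn
  rw [RIE_K_eq i j hn']
  refine integral_mono (RIE_eta_int (RIE_slice (RIE_F_cont hG hR hZ hA i j) hn'))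
    (RIE_eta_int continuousOn_const) fun z => ?_
  show eta z ^ 2 * RIE_F f N Z Ψ i j (A, z) ≤ eta z ^ 2 * c
  by_cases hz : eta z ^ 2 = 0
  · rw [hz, zero_mul, zero_mul]
  · refine mul_le_mul_of_nonneg_left ?_ (sq_nonneg _)
    have hmem : (A, z) ∈ closedBall one3 (r / 2) ×ˢ tsupport (fun z : ℂ => eta z ^ 2) := by
      refine ⟨?_, subset_tsupport _ hz⟩
      show dist A one3 ≤ r / 2
      refine (dist_pi_le_iff (by linarith)).2 fun k => (dist_pi_le_iff (by linarith)).2 fun l => ?_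
      rw [dist_eq_norm]
      exact (hn k l).le
    exact (le_abs_self _).trans (hcb _ hmem)

theorem RIE_nq_pos {W : E3} (hW : W ≠ 0) : 0 < nq W := by
  have h1 := UNH_nq (Z := W)
  have h2 : 0 < ‖W‖ := norm_pos_iff.2 hW
  have h3 : 0 < ‖W‖ ^ 2 := by positivity
  linarith

theorem RIE_nq_nonneg {n : ℕ} (v : Fin n → ℂ) : 0 ≤ nq v :=
  Finset.sum_nonneg fun _ _ => Complex.normSq_nonneg _

/-- occupation in terms of the energy -/
theorem RIE_occ (hENC : ENC_stmt) (hRAD : RAD_stmt) (hd : 2 ≤ d) (hG : Good0 f U) (hr0 : 0 < r)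
    (hr : r ≤ 1 / 100) (hR : Rad r (f.map '' closure U) U) (hZ : Dsc (f.map '' closure U) Z)
    (hA : Adm f U N Ψ B) {A : M3} (hn : Near (r / 64) A) :
    ∫⁻ z, ENNReal.ofReal (eta z ^ 2 * ar (fun z => mv A (Z z)) z) *
      ENNReal.ofReal (eh f N Ψ (mv A (Z z))) ≤
      ENNReal.ofReal (2 * ∑ i, ∑ j, RIE_K f N r Z Ψ i j A) := by
  have hnr : Near r A := RIE_near_mono (by linarith) hn
  have hnh : Near (1 / 100) A := RIE_near_mono (by linarith) hn
  have hs : ∀ i j, Integrable (fun z => eta z ^ 2 * RIE_F f N Z Ψ i j (A, z)) := fun i j =>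
    RIE_eta_int (RIE_slice (RIE_F_cont hG hR hZ hA i j) hnr)
  have hs2 : ∀ i, Integrable (fun z => ∑ j, eta z ^ 2 * RIE_F f N Z Ψ i j (A, z)) := fun i =>
    integrable_finsetSum _ fun j _ => hs i j
  have hs3 : Integrable (fun z => ∑ i, ∑ j, eta z ^ 2 * RIE_F f N Z Ψ i j (A, z)) :=
    integrable_finsetSum _ fun i _ => hs2 i
  have hsum : ∫ z, 2 * ∑ i, ∑ j, eta z ^ 2 * RIE_F f N Z Ψ i j (A, z) =
      2 * ∑ i, ∑ j, RIE_K f N r Z Ψ i j A := by
    rw [integral_const_mul, integral_finsetSum _ fun i _ => hs2 i]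
    congr 1
    refine Finset.sum_congr rfl fun i _ => ?_
    rw [integral_finsetSum _ fun j _ => hs i j]
    exact Finset.sum_congr rfl fun j _ => (RIE_K_eq i j hnr).symm
  rw [← hsum, ofReal_integral_eq_lintegral_ofReal (hs3.const_mul 2)
    (Eventually.of_forall fun z => mul_nonneg two_pos.le (Finset.sum_nonneg fun i _ =>
      Finset.sum_nonneg fun j _ => RIE_F_nonneg hR hZ hA i j hnr z))]
  refine lintegral_mono fun z => ?_
  by_cases hz : z ∈ ball (0 : ℂ) 1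
  · have hW : mv A (Z z) ∈ cone U := RIE_mem hR hZ hnr hz
    have hW0 : mv A (Z z) ≠ 0 := hW.1
    have hpos := RIE_nq_pos hW0
    have hder : deriv (fun z => mv A (Z z)) z = mv A (deriv Z z) :=
      (RIE_mv_deriv (hZ.1.differentiableAt (isOpen_ball.mem_nhds hz)) A).deriv
    have har : 0 ≤ ar (fun z => mv A (Z z)) z :=
      div_nonneg (RIE_nq_nonneg _) (by positivity)
    rw [← ENNReal.ofReal_mul (mul_nonneg (sq_nonneg _) har)]
    refine ENNReal.ofReal_le_ofReal ?_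
    obtain ⟨-, h0, h3⟩ := hENC d f U N Ψ B hd hG hA _ hW
    have h4 : ∑ i, ∑ j, eta z ^ 2 * RIE_F f N Z Ψ i j (A, z) =
        eta z ^ 2 * (nq (Z z) * nq (crs (mv A (Z z)) (mv A (deriv Z z))) * ed f N Ψ (mv A (Z z))) := by
      rw [← h3, Finset.mul_sum]
      refine Finset.sum_congr rfl fun i _ => ?_
      rw [Finset.mul_sum]
      rfl
    rw [h4]
    have h5 : eta z ^ 2 * ar (fun z => mv A (Z z)) z * eh f N Ψ (mv A (Z z)) =
        eta z ^ 2 * (nq (mv A (Z z)) * nq (crs (mv A (Z z)) (mv A (deriv Z z))) *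
          ed f N Ψ (mv A (Z z))) / 2 := by
      unfold ar eh
      rw [hder]
      field_simp
    rw [h5]
    have h6 : nq (mv A (Z z)) ≤ 4 * nq (Z z) := (hRAD.2.1 A hnh (Z z) (Z z)).2.2.2.1
    have h7 : 0 ≤ nq (crs (mv A (Z z)) (mv A (deriv Z z))) := RIE_nq_nonneg _
    have h8 : nq (mv A (Z z)) * nq (crs (mv A (Z z)) (mv A (deriv Z z))) * ed f N Ψ (mv A (Z z)) ≤
        4 * nq (Z z) * nq (crs (mv A (Z z)) (mv A (deriv Z z))) * ed f N Ψ (mv A (Z z)) :=
      mul_le_mul_of_nonneg_right (mul_le_mul_of_nonneg_right h6 h7) h0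
    have h9 := mul_le_mul_of_nonneg_left h8 (sq_nonneg (eta z))
    linarith
  · rw [RIE_eta_zero hz, zero_mul, ENNReal.ofReal_zero, zero_mul]
    exact zero_le

/-- the step of `DCO` for the measurable versions -/
theorem RIE_step (hr0 : 0 < r) (hZ : Dsc (f.map '' closure U) Z) {A : M3} (hn : Near (r / 8) A) (i j : Fin 3) (e : ℝ)
    (h : Jf f N Ψ (fun z => mv A (Z z)) +
          (1 / 50) * (∫ s in ball (0 : ℂ) (r / 32), (mass f N Z)⁻¹ *
            ∫ z, eta z ^ 2 * en f N Ψ (mv (adE A i j s) (Z z)) (Pi.single i (Z z j))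
              (mv (adE A i j s) (deriv Z z))) ≤
        (∫ s, phr (r / 8) s * Jf f N Ψ (fun z => mv (adE A i j s) (Z z))) + e) :
    RIE_J f N r Z Ψ A + (1 / 50) * (∫ s in ball (0 : ℂ) (r / 32),
      (mass f N Z)⁻¹ * RIE_K f N r Z Ψ i j (adE A i j s)) ≤
      (∫ s, phr (r / 8) s * RIE_J f N r Z Ψ (adE A i j s)) + e := by
  have hr8 : 0 < r / 8 := by positivity
  rw [RIE_J_eq (r := r) hZ (RIE_near_mono (by linarith) hn)] at h
  have e1 : ∫ s in ball (0 : ℂ) (r / 32), (mass f N Z)⁻¹ *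
            ∫ z, eta z ^ 2 * en f N Ψ (mv (adE A i j s) (Z z)) (Pi.single i (Z z j))
              (mv (adE A i j s) (deriv Z z)) =
      ∫ s in ball (0 : ℂ) (r / 32), (mass f N Z)⁻¹ * RIE_K f N r Z Ψ i j (adE A i j s) := by
    refine setIntegral_congr_fun measurableSet_ball fun s hs => ?_
    rw [mem_ball_zero_iff] at hs
    have h1 : Near r (adE A i j s) := RIE_near_adE hn i j hs (by linarith)
    show (mass f N Z)⁻¹ * _ = (mass f N Z)⁻¹ * RIE_K f N r Z Ψ i j (adE A i j s)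
    rw [RIE_K_eq i j h1]
    rfl
  have e2 : ∫ s, phr (r / 8) s * Jf f N Ψ (fun z => mv (adE A i j s) (Z z)) =
      ∫ s, phr (r / 8) s * RIE_J f N r Z Ψ (adE A i j s) := by
    refine integral_congr_ae (Eventually.of_forall fun s => ?_)
    show phr (r / 8) s * Jf f N Ψ (fun z => mv (adE A i j s) (Z z)) =
      phr (r / 8) s * RIE_J f N r Z Ψ (adE A i j s)
    by_cases hs : phr (r / 8) s = 0
    · rw [hs, zero_mul, zero_mul]
    · rw [RIE_J_eq (r := r) hZ (RIE_near_adE hn i j (RIE_phr_small hr8 hs) (by linarith))]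
  rw [e1, e2] at h
  exact h

end main

theorem RIE (hDCO : DCO_stmt) (hENC : ENC_stmt) (hRAD : RAD_stmt) : RIE_stmt := by
  intro d f U r hd hG hr0 hr1 hR
  obtain ⟨c1, hc1, hD⟩ := hDCO d f U r hd hG hr0 hr1 hR
  have hr8 : 0 < r / 8 := by positivity
  have hc1p : 0 < c1 := by linarith
  -- the constant
  have hvt : volume (ball (0 : ℂ) (r / 32)) ≠ ⊤ := measure_ball_lt_top.ne
  have hv0 : 0 < (volume (ball (0 : ℂ) (r / 32))).toReal :=
    ENNReal.toReal_pos (measure_ball_pos _ _ (by positivity)).ne' hvt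
  have hp : 0 < RIE_p r := by
    unfold RIE_p
    have := KER_cpos
    positivity
  obtain ⟨c, hc⟩ : ∃ c, c = (volume (ball (0 : ℂ) (r / 32))).toReal * RIE_p r ^ 9 := ⟨_, rfl⟩
  have hcp : 0 < c := by
    rw [hc]
    positivity
  have hcof : ENNReal.ofReal c = volume (ball (0 : ℂ) (r / 32)) * ENNReal.ofReal (RIE_p r ^ 9) := by
    rw [hc, ENNReal.ofReal_mul hv0.le, ENNReal.ofReal_toReal hvt]
  have hci : 0 < c⁻¹ := inv_pos.2 hcp
  have hC1 : 0 < 9000 * c⁻¹ * c1 := by positivity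
  refine ⟨9 * c1 + 9000 * c⁻¹ * c1, by linarith, ?_⟩
  intro N Ψ B Z hA hB hZ hM
  have hMc : c1 ≤ mass f N Z := by linarith
  have hM0 : 0 < mass f N Z := by linarith
  have hw0 : 0 < (mass f N Z)⁻¹ := inv_pos.2 hM0
  obtain ⟨m, hm⟩ : ∃ m, m = mass f N Z ^ (-(1 / 2) : ℝ) := ⟨_, rfl⟩
  have hm0 : 0 ≤ m := by
    rw [hm]
    exact Real.rpow_nonneg hM0.le _
  have hBm : 0 ≤ B * m := mul_nonneg (by linarith) hm0
  have he : 0 ≤ c1 * B * m := by
    rw [mul_assoc]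
    exact mul_nonneg hc1p.le hBm
  have hJm : Measurable (RIE_J f N r Z Ψ) := RIE_J_meas hG hR hZ hA
  have hJB : ∀ A, Near r A → |RIE_J f N r Z Ψ A| ≤ B := fun A hn =>
    RIE_J_bound hG hR hZ hA (by linarith) hn
  have hstep : ∀ (A : M3) (i j : Fin 3), Near (r / 8) A →
      RIE_J f N r Z Ψ A + (1 / 50) * (∫ s in ball (0 : ℂ) (r / 32),
        (mass f N Z)⁻¹ * RIE_K f N r Z Ψ i j (adE A i j s)) ≤
        (∫ s, phr (r / 8) s * RIE_J f N r Z Ψ (adE A i j s)) + c1 * B * m := by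
    intro A i j hn
    have h := hD N Ψ B Z A i j hA hB hZ hMc (RIE_near_mono (by linarith) hn)
    rw [← hm] at h
    exact RIE_step hr0 hZ hn i j _ h
  have hone := RIE_one hr0 (RIE_J f N r Z Ψ) hJm B (c1 * B * m) hJB he (by
    intro A i j hn
    have h1 := hstep A i j hn
    have h2 : 0 ≤ ∫ s in ball (0 : ℂ) (r / 32),
        (mass f N Z)⁻¹ * RIE_K f N r Z Ψ i j (adE A i j s) := by
      refine setIntegral_nonneg measurableSet_ball fun s hs => ?_
      rw [mem_ball_zero_iff] at hs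
      exact mul_nonneg hw0.le (RIE_K_nonneg hR hZ hA i j (RIE_near_adE hn i j hs (by linarith)))
    linarith)
  have hJ1 : RIE_J f N r Z Ψ one3 = Jf f N Ψ Z := by
    rw [← RIE_J_eq (r := r) hZ (RIE_near_one hr0)]
    simp_rw [RIE_mv_one]
  rw [hJ1] at hone
  rw [← hm]
  have h900 : 9 * (c1 * B * m) ≤ (9 * c1 + 9000 * c⁻¹ * c1) * B * m := by
    have := mul_nonneg hC1.le hBm
    nlinarith
  constructor
  · have e1 : ∫ A, rho (r / 8) A * Jf f N Ψ (fun z => mv A (Z z)) =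
        ∫ A, rho (r / 8) A * RIE_J f N r Z Ψ A := by
      refine integral_congr_ae (Eventually.of_forall fun A => ?_)
      show rho (r / 8) A * Jf f N Ψ (fun z => mv A (Z z)) = rho (r / 8) A * RIE_J f N r Z Ψ A
      by_cases h : rho (r / 8) A = 0
      · rw [h, zero_mul, zero_mul]
      · rw [RIE_J_eq (r := r) hZ (RIE_near_mono (by linarith) (RIE_rho_near hr8 h))]
    rw [e1]
    linarith
  · intro b hb
    have hbJ : ∀ A, Near r A → RIE_J f N r Z Ψ A ≤ b := by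
      intro A hn
      rw [← RIE_J_eq (r := r) hZ hn]
      exact hb A hn
    have hb0 : 0 ≤ b - Jf f N Ψ Z := by
      have := hbJ one3 (RIE_near_one hr0)
      rw [hJ1] at this
      linarith
    obtain ⟨Y, hY⟩ : ∃ Y, Y = b - Jf f N Ψ Z + 10 * (c1 * B * m) := ⟨_, rfl⟩
    have hY0 : 0 ≤ Y := by
      rw [hY]
      positivity
    -- each pair of indices
    have hij : ∀ i j : Fin 3, ∫⁻ A in {A : M3 | Near (r / 64) A},
        ENNReal.ofReal ((mass f N Z)⁻¹ * RIE_K f N r Z Ψ i j A) ≤ ENNReal.ofReal (c⁻¹ * (50 * Y)) := by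
      intro i j
      obtain ⟨cK, hcK⟩ := RIE_K_bound hr0 hG hR hZ hA i j
      have h1 := RIE_two hr0 (RIE_J f N r Z Ψ) (fun A => (mass f N Z)⁻¹ * RIE_K f N r Z Ψ i j A) hJm
        ((RIE_K_meas hG hR hZ hA i j).const_mul _) B (c1 * B * m) b hJB hbJ he
        (fun A hn => mul_nonneg hw0.le (RIE_K_nonneg hR hZ hA i j hn)) ((mass f N Z)⁻¹ * cK)
        (fun A hn => mul_le_mul_of_nonneg_left (hcK A hn) hw0.le) i j
        (fun A hn => hstep A i j hn)
      rw [← mul_assoc, ← hcof] at h1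
      have h2 : ENNReal.ofReal (50 * (b + c1 * B * m - ∫ A, rho (r / 8) A * RIE_J f N r Z Ψ A)) ≤
          ENNReal.ofReal (50 * Y) := by
        refine ENNReal.ofReal_le_ofReal ?_
        rw [hY]
        linarith
      have h3 := h1.trans h2
      calc ∫⁻ A in {A : M3 | Near (r / 64) A}, ENNReal.ofReal ((mass f N Z)⁻¹ * RIE_K f N r Z Ψ i j A) =
          ENNReal.ofReal c⁻¹ * (ENNReal.ofReal c * ∫⁻ A in {A : M3 | Near (r / 64) A},
            ENNReal.ofReal ((mass f N Z)⁻¹ * RIE_K f N r Z Ψ i j A)) := by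
            rw [← mul_assoc, ← ENNReal.ofReal_mul hci.le, inv_mul_cancel₀ hcp.ne',
              ENNReal.ofReal_one, one_mul]
        _ ≤ ENNReal.ofReal c⁻¹ * ENNReal.ofReal (50 * Y) := mul_le_mul_right h3 _
        _ = _ := by rw [← ENNReal.ofReal_mul hci.le]
    have hKm : ∀ i j : Fin 3, Measurable fun A =>
        ENNReal.ofReal ((mass f N Z)⁻¹ * RIE_K f N r Z Ψ i j A) := fun i j =>
      ((RIE_K_meas hG hR hZ hA i j).const_mul _).ennreal_ofReal
    have h1 : ENNReal.ofReal (mass f N Z)⁻¹ * Occ (r / 64) (fun Y => ENNReal.ofReal (eh f N Ψ Y)) Z ≤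
        ∫⁻ A in {A : M3 | Near (r / 64) A}, 2 * ∑ i, ∑ j,
          ENNReal.ofReal ((mass f N Z)⁻¹ * RIE_K f N r Z Ψ i j A) := by
      unfold Occ
      rw [← lintegral_const_mul' _ _ ENNReal.ofReal_ne_top]
      refine setLIntegral_mono' (RIE_near_open _).measurableSet fun A hn => ?_
      have hnr : Near r A := RIE_near_mono (a := r / 64) (by linarith) hn
      have h2 := RIE_occ hENC hRAD hd hG hr0 hr1 hR hZ hA hn
      refine (mul_le_mul_right h2 _).trans (le_of_eq ?_)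
      have hnn : ∀ i j : Fin 3, 0 ≤ (mass f N Z)⁻¹ * RIE_K f N r Z Ψ i j A := fun i j =>
        mul_nonneg hw0.le (RIE_K_nonneg hR hZ hA i j hnr)
      rw [← ENNReal.ofReal_mul hw0.le]
      have h3 : (mass f N Z)⁻¹ * (2 * ∑ i, ∑ j, RIE_K f N r Z Ψ i j A) =
          2 * ∑ i, ∑ j, (mass f N Z)⁻¹ * RIE_K f N r Z Ψ i j A := by
        simp_rw [← Finset.mul_sum]
        ring
      rw [h3, ENNReal.ofReal_mul two_pos.le, ENNReal.ofReal_sum_of_nonneg
        fun i _ => Finset.sum_nonneg fun j _ => hnn i j]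
      rw [ENNReal.ofReal_ofNat]
      congr 1
      refine Finset.sum_congr rfl fun i _ => ?_
      rw [ENNReal.ofReal_sum_of_nonneg fun j _ => hnn i j]
    refine h1.trans ?_
    rw [lintegral_const_mul' _ _ (by norm_num),
      lintegral_finsetSum _ fun i _ => Finset.measurable_sum _ fun j _ => hKm i j]
    have h4 : ∀ i : Fin 3, ∫⁻ A in {A : M3 | Near (r / 64) A}, ∑ j,
        ENNReal.ofReal ((mass f N Z)⁻¹ * RIE_K f N r Z Ψ i j A) ≤
        3 * ENNReal.ofReal (c⁻¹ * (50 * Y)) := by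
      intro i
      rw [lintegral_finsetSum _ fun j _ => hKm i j]
      refine (Finset.sum_le_sum fun j _ => hij i j).trans (le_of_eq ?_)
      rw [Finset.sum_const, Finset.card_univ, Fintype.card_fin, nsmul_eq_mul]
      norm_num
    have h5 : ∑ i : Fin 3, ∫⁻ A in {A : M3 | Near (r / 64) A}, ∑ j,
        ENNReal.ofReal ((mass f N Z)⁻¹ * RIE_K f N r Z Ψ i j A) ≤
        3 * (3 * ENNReal.ofReal (c⁻¹ * (50 * Y))) := by
      refine (Finset.sum_le_sum fun i _ => h4 i).trans (le_of_eq ?_)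
      rw [Finset.sum_const, Finset.card_univ, Fintype.card_fin, nsmul_eq_mul]
      norm_num
    refine (mul_le_mul_right h5 _).trans ?_
    have h6 : (2 : ℝ≥0∞) * (3 * (3 * ENNReal.ofReal (c⁻¹ * (50 * Y)))) =
        ENNReal.ofReal (18 * (c⁻¹ * (50 * Y))) := by
      rw [ENNReal.ofReal_mul (by norm_num : (0 : ℝ) ≤ 18), ← mul_assoc, ← mul_assoc]
      congr 1
      rw [ENNReal.ofReal_ofNat]
      norm_num
    rw [h6]
    refine ENNReal.ofReal_le_ofReal ?_
    rw [hY]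
    have h7 : 18 * (c⁻¹ * (50 * (b - Jf f N Ψ Z + 10 * (c1 * B * m)))) =
        900 * c⁻¹ * (b - Jf f N Ψ Z) + 9000 * c⁻¹ * c1 * (B * m) := by ring
    have h8 : (9 * c1 + 9000 * c⁻¹ * c1) * (b - Jf f N Ψ Z + B * m) =
        9 * c1 * (b - Jf f N Ψ Z + B * m) + 9000 * c⁻¹ * c1 * (b - Jf f N Ψ Z) +
          9000 * c⁻¹ * c1 * (B * m) := by ring
    rw [h7, h8]
    have h9 : 0 ≤ 9 * c1 * (b - Jf f N Ψ Z + B * m) := by positivity
    have h10 : 900 * c⁻¹ * (b - Jf f N Ψ Z) ≤ 9000 * c⁻¹ * c1 * (b - Jf f N Ψ Z) := by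
      refine mul_le_mul_of_nonneg_right ?_ hb0
      nlinarith
    linarith

end Pool.Agent.P2
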