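import Pool.Agent.helper56.P2.SpecW

/-!
# Row p2:WCR (affine change of variables)
-/

set_option autoImplicit false

open scoped ContDiff Topology ComplexConjugate ENNReal
open MeasureTheory Filter Set Metric MvPolynomial Pool.Agent.helper37.QA

namespace Pool.Agent.P2W

open Pool.Agent.P2

theorem WCR_map (ξ0 : ℂ) {a : ℝ} (ha : 0 < a) :
    Measure.map (fun x : ℂ => ξ0 + a * x) volume = ENNReal.ofReal ((a ^ 2)⁻¹) • volume := by
  have e : (fun x : ℂ => ξ0 + a * x) = (fun x => ξ0 + x) ∘ (fun x => a • x) := by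
    funext x
    show ξ0 + a * x = ξ0 + a • x
    rw [Complex.real_smul]
  rw [e, ← Measure.map_map (measurable_const_add ξ0) (measurable_const_smul a),
    Measure.map_addHaar_smul _ ha.ne', Measure.map_smul, map_add_left_eq_self,
    Complex.finrank_real_complex, abs_of_pos (by positivity)]

theorem WCR_emb (ξ0 : ℂ) {a : ℝ} (ha : 0 < a) : MeasurableEmbedding (fun x : ℂ => ξ0 + a * x) := by
  have hc : Continuous (fun x : ℂ => ξ0 + a * x) :=
    continuous_const.add (continuous_const.mul continuous_id)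
  have ha' : (a : ℂ) ≠ 0 := Complex.ofReal_ne_zero.2 ha.ne'
  refine hc.measurableEmbedding fun x y hxy => ?_
  have h1 : (a : ℂ) * x = a * y := add_left_cancel hxy
  exact mul_left_cancel₀ ha' h1

theorem WCR : WCR_stmt := by
  intro g ξ0 a b ha hb
  have h0 : Continuous (fun p : ℂ × ℂ => ((ξ0 + a * p.1, b * p.2) : ℂ × ℂ)) :=
    (continuous_const.add (continuous_const.mul continuous_fst)).prodMk
      (continuous_const.mul continuous_snd)
  have ha' : (a : ℂ) ≠ 0 := Complex.ofReal_ne_zero.2 ha.ne'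
  have hb' : (b : ℂ) ≠ 0 := Complex.ofReal_ne_zero.2 hb.ne'
  have hinj : Function.Injective (fun p : ℂ × ℂ => ((ξ0 + a * p.1, b * p.2) : ℂ × ℂ)) := by
    rintro ⟨x, y⟩ ⟨x', y'⟩ h
    have h1 : ξ0 + a * x = ξ0 + a * x' := congrArg Prod.fst h
    have h2 : (b : ℂ) * y = b * y' := congrArg Prod.snd h
    rw [mul_left_cancel₀ ha' (add_left_cancel h1), mul_left_cancel₀ hb' h2]
  have hemb := h0.measurableEmbedding hinj
  have h1 := hemb.lintegral_map (μ := (volume : Measure (ℂ × ℂ))) g
  rw [← h1]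
  have h2 : Measure.map (fun p : ℂ × ℂ => ((ξ0 + a * p.1, b * p.2) : ℂ × ℂ)) volume =
      ENNReal.ofReal ((a ^ 2 * b ^ 2)⁻¹) • volume := by
    have e0 : (fun x : ℂ => (b : ℂ) * x) = fun x : ℂ => (0 : ℂ) + b * x := by
      funext x
      rw [zero_add]
    have hm1 := WCR_map ξ0 ha
    have hm2 := WCR_map 0 hb
    rw [← e0] at hm2
    have m1 : Measurable (fun x : ℂ => ξ0 + a * x) := (WCR_emb ξ0 ha).measurable
    have m2 : Measurable (fun x : ℂ => (b : ℂ) * x) := by
      rw [e0]
      exact (WCR_emb 0 hb).measurable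
    have e1 : (fun p : ℂ × ℂ => ((ξ0 + a * p.1, b * p.2) : ℂ × ℂ)) =
        Prod.map (fun x : ℂ => ξ0 + a * x) (fun x : ℂ => (b : ℂ) * x) := rfl
    have hfm : IsFiniteMeasureOnCompacts (volume : Measure ℂ) := inferInstance
    rw [e1, Measure.volume_eq_prod, ← Measure.map_prod_map _ _ m1 m2, hm1, hm2,
      Measure.prod_smul_left, Measure.prod_smul_right, smul_smul, ← ENNReal.ofReal_mul (by positivity),
      mul_inv]
  rw [h2, lintegral_smul_measure, smul_eq_mul]

end Pool.Agent.P2W
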