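import Pool.Agent.helper56.P2.SpecW
import Pool.Agent.helper76.P2.STA1
import Pool.Agent.helper51.P2.CH1
import Pool.Agent.helper5.P2.INTB

/-!
# Row p2:WLG (one variable estimate)
-/

set_option autoImplicit false

open scoped ContDiff Topology ComplexConjugate ENNReal
open MeasureTheory Filter Set Metric MvPolynomial Pool.Agent.helper37.QA

namespace Pool.Agent.P2W

open Pool.Agent.P2 Pool.Agent.P2I

/-- the Laplacian of a logarithm -/
theorem WLG_log {f : ℂ → ℝ} {z : ℂ} (hf : ContDiffAt ℝ 2 f z) (h0 : 0 < f z) :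
    lap (fun w => Real.log (f w)) z = lap f z / f z -
      (1 / 4) * ((fderiv ℝ f z 1 ^ 2 + fderiv ℝ f z Complex.I ^ 2) / f z ^ 2) := by
  have hf1 : DifferentiableAt ℝ f z := hf.differentiableAt (by simp)
  have hpos : ∀ᶠ w in 𝓝 z, 0 < f w := hf1.continuousAt.eventually (lt_mem_nhds h0)
  have key : ∀ v : ℂ, fderiv ℝ (fun w => fderiv ℝ (fun w => Real.log (f w)) w v) z v =
      (f z)⁻¹ * fderiv ℝ (fun w => fderiv ℝ f w v) z v - (f z ^ 2)⁻¹ * fderiv ℝ f z v ^ 2 := by
    intro v
    have h1 : (fun w => fderiv ℝ (fun w => Real.log (f w)) w v) =ᶠ[𝓝 z]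
        fun w => (f w)⁻¹ * fderiv ℝ f w v := by
      filter_upwards [STA_ev hf, hpos] with w hw1 hw2
      rw [(hw1.hasFDerivAt.log hw2.ne').fderiv]
      rfl
    rw [h1.fderiv_eq]
    have h5 : HasFDerivAt (fun w => (f w)⁻¹) ((-(f z ^ 2)⁻¹) • fderiv ℝ f z) z :=
      (hasDerivAt_inv h0.ne').comp_hasFDerivAt z hf1.hasFDerivAt
    have h2 := h5.mul (STA_dd hf v).hasFDerivAt
    have h3 : fderiv ℝ (fun w => (f w)⁻¹ * fderiv ℝ f w v) z = _ := h2.fderiv
    rw [h3]
    simp
    ring
  have hHf : ContDiffAt ℝ 2 (fun w => Real.log (f w)) z := hf.log h0.ne'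
  rw [MSS_lap hHf, MSS_lap hf, key, key]
  field_simp
  ring

theorem WLG_grad {f : ℂ → ℝ} {z : ℂ} (hf : DifferentiableAt ℝ f z) (h0 : 0 < f z) (v : ℂ) :
    fderiv ℝ (fun w => Real.log (f w)) z v = (f z)⁻¹ * fderiv ℝ f z v := by
  rw [(hf.hasFDerivAt.log h0.ne').fderiv]
  rfl

/-- one component -/
theorem WLG_comp {h : ℂ → ℂ} {z : ℂ} (hh : DifferentiableAt ℂ h z) (v : ℂ) :
    |fderiv ℝ (fun w => Complex.normSq (h w)) z v| ≤ 2 * (‖h z‖ * (‖deriv h z‖ * ‖v‖)) := by
  have h1 : HasFDerivAt (fun w => Complex.normSq (h w))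
      ((fderiv ℝ Complex.normSq (h z)).comp ((fderiv ℂ h z).restrictScalars ℝ)) z :=
    ((CH1_normSq.differentiable (by simp)) (h z)).hasFDerivAt.comp z (hh.hasFDerivAt.restrictScalars ℝ)
  rw [h1.fderiv]
  show |fderiv ℝ Complex.normSq (h z) (fderiv ℂ h z v)| ≤ _
  have h2 : ∀ w u : ℂ, fderiv ℝ Complex.normSq w u = 2 * (w.re * u.re + w.im * u.im) := by
    intro w u
    have e1 : HasFDerivAt (fun w : ℂ => w.re * w.re + w.im * w.im)
        (w.re • Complex.reCLM + w.re • Complex.reCLM + (w.im • Complex.imCLM + w.im • Complex.imCLM)) w :=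
      ((Complex.reCLM.hasFDerivAt (x := w)).mul (Complex.reCLM.hasFDerivAt (x := w))).add
        ((Complex.imCLM.hasFDerivAt (x := w)).mul (Complex.imCLM.hasFDerivAt (x := w)))
    have e2 : (Complex.normSq : ℂ → ℝ) = fun w : ℂ => w.re * w.re + w.im * w.im := by
      funext w
      exact Complex.normSq_apply w
    rw [e2, e1.fderiv]
    simp
    ring
  rw [h2]
  have h3 : fderiv ℂ h z v = v * deriv h z := by
    have := (fderiv ℂ h z).map_smul v 1
    rw [smul_eq_mul, mul_one, fderiv_apply_one_eq_deriv, smul_eq_mul] at this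
    exact this
  rw [h3]
  generalize h z = w
  obtain ⟨u, hu⟩ : ∃ u, u = v * deriv h z := ⟨_, rfl⟩
  rw [← hu]
  have h4 : |w.re * u.re + w.im * u.im| ≤ ‖w‖ * ‖u‖ := by
    have h5 : w.re * u.re + w.im * u.im = (w * (starRingEnd ℂ) u).re := by
      rw [Complex.mul_re, Complex.conj_re, Complex.conj_im]
      ring
    rw [h5]
    calc |(w * (starRingEnd ℂ) u).re| ≤ ‖w * (starRingEnd ℂ) u‖ := Complex.abs_re_le_norm _
      _ = ‖w‖ * ‖u‖ := by rw [norm_mul, RCLike.norm_conj]
  rw [abs_mul, abs_two]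
  have h6 : ‖u‖ = ‖deriv h z‖ * ‖v‖ := by
    rw [hu, norm_mul, mul_comm]
  rw [h6] at h4
  linarith

theorem WLG_lapc {h : ℂ → ℂ} {z : ℂ} (hh : DifferentiableOn ℂ h (ball 0 1)) (hz : z ∈ ball (0 : ℂ) 1) :
    lap (fun w => Complex.normSq (h w)) z = Complex.normSq (deriv h z) := by
  have h1 := CH1_chain (ball 0 1) h Complex.normSq z isOpen_ball hh hz (CH1_normSq.of_le INTB_two).contDiffAt
  rw [h1]
  have h2 : lap Complex.normSq (h z) = 1 := INTB_lapnormSq (h z)
  rw [h2, mul_one]

theorem WLG_sm {h : ℂ → ℂ} {z : ℂ} (hh : DifferentiableOn ℂ h (ball 0 1)) (hz : z ∈ ball (0 : ℂ) 1) :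
    ContDiffAt ℝ ∞ (fun w => Complex.normSq (h w)) z :=
  CH1_normSq.contDiffAt.comp z ((CH1_smooth h _ isOpen_ball hh).contDiffAt (isOpen_ball.mem_nhds hz))

theorem WLG_sum {ι : Type} (S : Finset ι) (u : ι → ℂ → ℝ) (z : ℂ) (hu : ∀ i ∈ S, ContDiffAt ℝ 2 (u i) z) :
    lap (fun w => ∑ i ∈ S, u i w) z = ∑ i ∈ S, lap (u i) z := by
  classical
  induction S using Finset.induction_on with
  | empty =>
    simp only [Finset.sum_empty]
    exact STA_lap_zero (Eventually.of_forall fun _ => rfl)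
  | insert a S ha ih =>
    have h1 : ∀ i ∈ S, ContDiffAt ℝ 2 (u i) z := fun i hi => hu i (Finset.mem_insert_of_mem hi)
    have h2 : ContDiffAt ℝ 2 (fun w => ∑ i ∈ S, u i w) z := ContDiffAt.sum h1
    have h3 := STA_lap_lin (hu a (Finset.mem_insert_self a S)) h2 1 1
    simp only [one_mul] at h3
    simp only [Finset.sum_insert ha]
    rw [h3, ih h1]

theorem WLG : WLG_stmt := by
  intro χ hχ hcs hsup K c M hc
  obtain ⟨r, ⟨hr0, hr1⟩, hr⟩ := exists_pos_lt_subset_ball one_pos (isClosed_tsupport χ) hsup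
  obtain ⟨X0, hX0⟩ := hχ.continuous.bounded_above_of_compact_support hcs
  obtain ⟨X1, hX1⟩ := (hχ.continuous_fderiv (by simp)).bounded_above_of_compact_support (hcs.fderiv ℝ)
  obtain ⟨hlc, hlt, hls⟩ := DMS_lap (hχ.of_le INTB_two) hsup
  obtain ⟨X2, hX2⟩ := hlc.bounded_above_of_compact_support hls
  have hX0' : 0 ≤ X0 := (norm_nonneg _).trans (hX0 0)
  have hX1' : 0 ≤ X1 := (norm_nonneg _).trans (hX1 0)
  have hX2' : 0 ≤ X2 := (norm_nonneg _).trans (hX2 0)
  obtain ⟨s, hs⟩ : ∃ s, s = (1 - r) / 2 := ⟨_, rfl⟩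
  have hs0 : 0 < s := by rw [hs]; linarith
  obtain ⟨A1, hA1⟩ : ∃ A1, A1 = c⁻¹ * (K * (2 * (|M| / s))) := ⟨_, rfl⟩
  have hA10 : 0 ≤ A1 := by rw [hA1]; positivity
  obtain ⟨A2, hA2⟩ : ∃ A2, A2 = (K * (|M| / s ^ 2)) / c + (1 / 4) * (A1 ^ 2 + A1 ^ 2) := ⟨_, rfl⟩
  have hA20 : 0 ≤ A2 := by rw [hA2]; positivity
  obtain ⟨L, hL⟩ : ∃ L, L = |Real.log c| + |Real.log M| := ⟨_, rfl⟩
  have hL0 : 0 ≤ L := by rw [hL]; positivity
  obtain ⟨C0, hC0⟩ : ∃ C0, C0 = X0 * A2 + L * X2 + (1 / 2) * (X1 * A1 + X1 * A1) := ⟨_, rfl⟩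
  have hC00 : 0 ≤ C0 := by rw [hC0]; positivity
  refine ⟨C0 * volume.real (ball (0 : ℂ) 1) + 1, by positivity, ?_⟩
  intro H hH hb
  have hHi : ∀ i, DifferentiableOn ℂ (fun z => H z i) (ball 0 1) := fun i => differentiableOn_pi.1 hH i
  have h00 := hb 0 (mem_ball_self one_pos)
  have hM : 0 < M := by linarith
  rw [abs_of_pos hM] at hA1 hA2
  have hq : ∀ z ∈ ball (0 : ℂ) 1, ContDiffAt ℝ ∞ (fun w => nq (H w)) z := fun z hz =>
    ContDiffAt.sum fun i _ => WLG_sm (hHi i) hz
  have hq0 : ∀ z ∈ ball (0 : ℂ) 1, 0 < nq (H z) := fun z hz => hc.trans_le (hb z hz).1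
  have hout : ∀ z ∉ tsupport χ, (fun z => χ z * Real.log (nq (H z))) =ᶠ[𝓝 z] fun _ => 0 := by
    intro z hz
    have h1 := notMem_tsupport_iff_eventuallyEq.1 hz
    filter_upwards [h1] with w hw
    rw [hw]
    simp
  -- pointwise bound
  have hpt : ∀ z, |lap (fun z => χ z * Real.log (nq (H z))) z| ≤ C0 := by
    intro z
    by_cases hz : z ∈ tsupport χ
    · have hz1 : z ∈ ball (0 : ℂ) 1 := hsup hz
      have hzr : ‖z‖ < r := by
        have := hr hz
        rwa [mem_ball_zero_iff] at this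
      have hcb : closedBall z s ⊆ ball (0 : ℂ) 1 := by
        intro w hw
        rw [mem_ball_zero_iff]
        have h1 : ‖w - z‖ ≤ s := by
          rw [← dist_eq_norm]
          exact hw
        have h2 : ‖w‖ ≤ ‖w - z‖ + ‖z‖ := by
          have := norm_add_le (w - z) z
          rwa [sub_add_cancel] at this
        rw [hs] at h1
        linarith
      have hn : ∀ w ∈ ball (0 : ℂ) 1, ∀ i, ‖H w i‖ ≤ Real.sqrt M := by
        intro w hw i
        rw [← Real.sqrt_sq (norm_nonneg (H w i))]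
        refine Real.sqrt_le_sqrt ?_
        rw [← Complex.normSq_eq_norm_sq]
        refine le_trans ?_ (hb w hw).2
        exact Finset.single_le_sum (f := fun i => Complex.normSq (H w i))
          (fun j _ => Complex.normSq_nonneg _) (Finset.mem_univ i)
      have hd : ∀ i, ‖deriv (fun z => H z i) z‖ ≤ Real.sqrt M / s := by
        intro i
        refine Complex.norm_deriv_le_of_forall_mem_sphere_norm_le hs0 ?_ ?_
        · exact ((hHi i).mono hcb).diffContOnCl_ball (Subset.refl _)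
        · intro w hw
          exact hn w (hcb (sphere_subset_closedBall hw)) i
      have hMM : Real.sqrt M * (Real.sqrt M / s) = M / s := by
        rw [← mul_div_assoc, Real.mul_self_sqrt hM.le]
      have hdz : ∀ i, DifferentiableAt ℂ (fun z => H z i) z := fun i =>
        (hHi i).differentiableAt (isOpen_ball.mem_nhds hz1)
      -- gradient of q
      have hgq : ∀ v : ℂ, ‖v‖ = 1 → |fderiv ℝ (fun w => nq (H w)) z v| ≤ K * (2 * (M / s)) := by
        intro v hv
        have e1 : fderiv ℝ (fun w => nq (H w)) z = ∑ i, fderiv ℝ (fun w => Complex.normSq (H w i)) z := by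
          have : (fun w => nq (H w)) = fun w => ∑ i, Complex.normSq (H w i) := rfl
          rw [this]
          exact fderiv_fun_sum fun i _ => (WLG_sm (hHi i) hz1).differentiableAt (by simp)
        rw [e1, _root_.sum_apply]
        refine (Finset.abs_sum_le_sum_abs _ _).trans ?_
        have e2 : ∀ i ∈ (Finset.univ : Finset (Fin K)),
            |fderiv ℝ (fun w => Complex.normSq (H w i)) z v| ≤ 2 * (M / s) := by
          intro i _
          refine (WLG_comp (hdz i) v).trans ?_
          rw [hv, mul_one, ← hMM]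
          have := mul_le_mul (hn z hz1 i) (hd i) (norm_nonneg _) (Real.sqrt_nonneg _)
          linarith
        refine (Finset.sum_le_sum e2).trans (le_of_eq ?_)
        rw [Finset.sum_const, Finset.card_univ, Fintype.card_fin, nsmul_eq_mul]
      have hq2 : ContDiffAt ℝ 2 (fun w => nq (H w)) z := (hq z hz1).of_le INTB_two
      have hqc := (hb z hz1).1
      have hqp := hq0 z hz1
      have hinv : (nq (H z))⁻¹ ≤ c⁻¹ := inv_anti₀ hc hqc
      have hgg : ∀ v : ℂ, ‖v‖ = 1 → |fderiv ℝ (fun w => Real.log (nq (H w))) z v| ≤ A1 := by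
        intro v hv
        rw [WLG_grad (hq2.differentiableAt (by simp)) hqp, abs_mul, abs_of_pos (inv_pos.2 hqp), hA1]
        exact mul_le_mul hinv (hgq v hv) (abs_nonneg _) (inv_pos.2 hc).le
      -- Laplacian of q
      have hlq : lap (fun w => nq (H w)) z = ∑ i, Complex.normSq (deriv (fun z => H z i) z) := by
        have e0 : (fun w => nq (H w)) = fun w => ∑ i, Complex.normSq (H w i) := rfl
        rw [e0, WLG_sum Finset.univ (fun i w => Complex.normSq (H w i)) z
          fun i _ => (WLG_sm (hHi i) hz1).of_le INTB_two]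
        exact Finset.sum_congr rfl fun i _ => WLG_lapc (hHi i) hz1
      have hlq0 : 0 ≤ lap (fun w => nq (H w)) z := by
        rw [hlq]
        exact Finset.sum_nonneg fun i _ => Complex.normSq_nonneg _
      have hlq1 : lap (fun w => nq (H w)) z ≤ K * (M / s ^ 2) := by
        rw [hlq]
        have e2 : ∀ i ∈ (Finset.univ : Finset (Fin K)),
            Complex.normSq (deriv (fun z => H z i) z) ≤ M / s ^ 2 := by
          intro i _
          rw [Complex.normSq_eq_norm_sq]
          have h1 := pow_le_pow_left₀ (norm_nonneg _) (hd i) 2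
          rwa [div_pow, Real.sq_sqrt hM.le] at h1
        refine (Finset.sum_le_sum e2).trans (le_of_eq ?_)
        rw [Finset.sum_const, Finset.card_univ, Fintype.card_fin, nsmul_eq_mul]
      have hlg : |lap (fun w => Real.log (nq (H w))) z| ≤ A2 := by
        have hx := hgg 1 norm_one
        have hy := hgg Complex.I Complex.norm_I
        rw [WLG_grad (hq2.differentiableAt (by simp)) hqp] at hx hy
        rw [WLG_log hq2 hqp]
        have e1 : (fderiv ℝ (fun w => nq (H w)) z 1 ^ 2 + fderiv ℝ (fun w => nq (H w)) z Complex.I ^ 2) /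
            nq (H z) ^ 2 = ((nq (H z))⁻¹ * fderiv ℝ (fun w => nq (H w)) z 1) ^ 2 +
              ((nq (H z))⁻¹ * fderiv ℝ (fun w => nq (H w)) z Complex.I) ^ 2 := by
          field_simp
        rw [e1]
        have hx2 := sq_le_sq' (neg_le_of_abs_le hx) (le_of_abs_le hx)
        have hy2 := sq_le_sq' (neg_le_of_abs_le hy) (le_of_abs_le hy)
        have hx3 := sq_nonneg ((nq (H z))⁻¹ * fderiv ℝ (fun w => nq (H w)) z 1)
        have hy3 := sq_nonneg ((nq (H z))⁻¹ * fderiv ℝ (fun w => nq (H w)) z Complex.I)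
        have h1 : 0 ≤ lap (fun w => nq (H w)) z / nq (H z) := div_nonneg hlq0 hqp.le
        have h2 : lap (fun w => nq (H w)) z / nq (H z) ≤ (K * (M / s ^ 2)) / c := by
          refine div_le_div₀ ?_ hlq1 hc hqc
          positivity
        rw [abs_le, hA2]
        constructor
        · have h3 : 0 ≤ (K * (M / s ^ 2)) / c := by positivity
          linarith
        · linarith [sq_nonneg A1]
      have hlogb : |Real.log (nq (H z))| ≤ L := by
        have h1 := Real.log_le_log hc hqc
        have h2 := Real.log_le_log hqp (hb z hz1).2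
        rw [hL, abs_le]
        constructor
        · linarith [neg_abs_le (Real.log c), abs_nonneg (Real.log M)]
        · linarith [le_abs_self (Real.log M), abs_nonneg (Real.log c)]
      have hχ2 : ContDiffAt ℝ 2 χ z := (hχ.of_le INTB_two).contDiffAt
      have hg2 : ContDiffAt ℝ 2 (fun w => Real.log (nq (H w))) z := hq2.log hqp.ne'
      rw [STA_lap_mul hχ2 hg2]
      have b0 : |χ z| ≤ X0 := hX0 z
      have b2 : |lap χ z| ≤ X2 := hX2 z
      have b1 : ∀ v : ℂ, ‖v‖ = 1 → |fderiv ℝ χ z v| ≤ X1 := by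
        intro v hv
        have h1 := (fderiv ℝ χ z).le_opNorm v
        rw [hv, mul_one] at h1
        exact h1.trans (hX1 z)
      have t1 : |χ z * lap (fun w => Real.log (nq (H w))) z| ≤ X0 * A2 := by
        rw [abs_mul]
        exact mul_le_mul b0 hlg (abs_nonneg _) hX0'
      have t2 : |Real.log (nq (H z)) * lap χ z| ≤ L * X2 := by
        rw [abs_mul]
        exact mul_le_mul hlogb b2 (abs_nonneg _) hL0
      have t3 : ∀ v : ℂ, ‖v‖ = 1 →
          |fderiv ℝ χ z v * fderiv ℝ (fun w => Real.log (nq (H w))) z v| ≤ X1 * A1 := by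
        intro v hv
        rw [abs_mul]
        exact mul_le_mul (b1 v hv) (hgg v hv) (abs_nonneg _) hX1'
      have t4 := t3 1 norm_one
      have t5 := t3 Complex.I Complex.norm_I
      rw [abs_le] at t1 t2 t4 t5 ⊢
      rw [hC0]
      constructor
      · linarith [t1.1, t2.1, t4.1, t5.1]
      · linarith [t1.2, t2.2, t4.2, t5.2]
    · rw [STA_lap_zero (hout z hz), abs_zero]
      exact hC00
  constructor
  · rw [contDiff_iff_contDiffAt]
    intro z
    by_cases hz : z ∈ tsupport χ
    · have hz1 : z ∈ ball (0 : ℂ) 1 := hsup hz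
      exact hχ.contDiffAt.mul ((hq z hz1).log (hq0 z hz1).ne')
    · exact contDiffAt_const.congr_of_eventuallyEq (hout z hz)
  · have h1 : ∫ z, |lap (fun z => χ z * Real.log (nq (H z))) z| =
        ∫ z in ball (0 : ℂ) 1, |lap (fun z => χ z * Real.log (nq (H z))) z| := by
      refine (setIntegral_eq_integral_of_forall_compl_eq_zero fun z hz => ?_).symm
      rw [STA_lap_zero (hout z fun h => hz (hsup h)), abs_zero]
    rw [h1]
    have h2 := norm_setIntegral_le_of_norm_le_const (μ := volume) (s := ball (0 : ℂ) 1)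
      (f := fun z => |lap (fun z => χ z * Real.log (nq (H z))) z|) (C := C0) measure_ball_lt_top
      (fun z _ => by
        rw [Real.norm_eq_abs, abs_abs]
        exact hpt z)
    have h3 := (le_abs_self _).trans h2
    linarith

end Pool.Agent.P2W
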