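import Pool.Agent.helper56.P2.SpecU

/-!
# Row p2:UTST (the product cut-off)
-/

set_option autoImplicit false
set_option linter.unusedVariables false

namespace Pool.Agent.P2U

open MeasureTheory Set Filter Topology Metric Complex
open scoped ENNReal ContDiff

noncomputable section

theorem UTST_bil (B : ℂ →L[ℝ] ℂ →L[ℝ] ℝ) (ξ : ℂ) :
    B ξ ξ + B (I * ξ) (I * ξ) = ‖ξ‖ ^ 2 * (B 1 1 + B I I) := by
  have h1 : ξ = ξ.re • (1 : ℂ) + ξ.im • I := by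
    apply Complex.ext <;> simp
  have h2 : I * ξ = (-ξ.im) • (1 : ℂ) + ξ.re • I := by
    apply Complex.ext <;> simp
  have h3 : ‖ξ‖ ^ 2 = ξ.re ^ 2 + ξ.im ^ 2 := by
    rw [← Complex.normSq_eq_norm_sq, Complex.normSq_apply]
    ring
  have e1 : B ξ ξ = ξ.re * (ξ.re * B 1 1 + ξ.im * B 1 I) + ξ.im * (ξ.re * B I 1 + ξ.im * B I I) := by
    conv_lhs => rw [h1]
    simp only [map_add, map_smul, ContinuousLinearMap.add_apply, ContinuousLinearMap.smul_apply,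
      smul_eq_mul]
    ring
  have e2 : B (I * ξ) (I * ξ) = (-ξ.im) * ((-ξ.im) * B 1 1 + ξ.re * B 1 I) +
      ξ.re * ((-ξ.im) * B I 1 + ξ.re * B I I) := by
    conv_lhs => rw [h2]
    simp only [map_add, map_smul, ContinuousLinearMap.add_apply, ContinuousLinearMap.smul_apply,
      smul_eq_mul]
    ring
  rw [e1, e2, h3]
  ring

theorem UTST_snd (X H : ℂ → ℝ) (hX : ContDiff ℝ 2 X) (hH : ContDiff ℝ 2 H) (p ξ : ℂ × ℂ) :
    fderiv ℝ (fderiv ℝ (fun q : ℂ × ℂ => X q.1 * H q.2)) p ξ ξ =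
      H p.2 * fderiv ℝ (fderiv ℝ X) p.1 ξ.1 ξ.1 + 2 * (fderiv ℝ X p.1 ξ.1 * fderiv ℝ H p.2 ξ.2) +
        X p.1 * fderiv ℝ (fderiv ℝ H) p.2 ξ.2 ξ.2 := by
  have hX1 : Differentiable ℝ X := hX.differentiable (by norm_num)
  have hH1 : Differentiable ℝ H := hH.differentiable (by norm_num)
  have hX2 : Differentiable ℝ (fderiv ℝ X) :=
    (hX.fderiv_right (m := 1) (by norm_num)).differentiable (by norm_num)
  have hH2 : Differentiable ℝ (fderiv ℝ H) :=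
    (hH.fderiv_right (m := 1) (by norm_num)).differentiable (by norm_num)
  have hXq : ∀ q : ℂ × ℂ, HasFDerivAt (fun q : ℂ × ℂ => X q.1)
      ((fderiv ℝ X q.1).comp (ContinuousLinearMap.fst ℝ ℂ ℂ)) q := fun q =>
    (hX1 q.1).hasFDerivAt.comp q hasFDerivAt_fst
  have hHq : ∀ q : ℂ × ℂ, HasFDerivAt (fun q : ℂ × ℂ => H q.2)
      ((fderiv ℝ H q.2).comp (ContinuousLinearMap.snd ℝ ℂ ℂ)) q := fun q =>
    (hH1 q.2).hasFDerivAt.comp q hasFDerivAt_snd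
  have hprod : ∀ q : ℂ × ℂ, HasFDerivAt (fun q : ℂ × ℂ => X q.1 * H q.2)
      (X q.1 • ((fderiv ℝ H q.2).comp (ContinuousLinearMap.snd ℝ ℂ ℂ)) +
        H q.2 • ((fderiv ℝ X q.1).comp (ContinuousLinearMap.fst ℝ ℂ ℂ))) q := fun q =>
    (hXq q).mul (hHq q)
  have hC : ContDiff ℝ 2 (fun q : ℂ × ℂ => X q.1 * H q.2) :=
    (hX.comp contDiff_fst).mul (hH.comp contDiff_snd)
  have hC2 : Differentiable ℝ (fderiv ℝ (fun q : ℂ × ℂ => X q.1 * H q.2)) :=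
    (hC.fderiv_right (m := 1) (by norm_num)).differentiable (by norm_num)
  have h1 : HasFDerivAt (fun q => fderiv ℝ (fun q : ℂ × ℂ => X q.1 * H q.2) q ξ)
      ((ContinuousLinearMap.apply ℝ ℝ ξ).comp
        (fderiv ℝ (fderiv ℝ (fun q : ℂ × ℂ => X q.1 * H q.2)) p)) p :=
    (ContinuousLinearMap.apply ℝ ℝ ξ).hasFDerivAt.comp p (hC2 p).hasFDerivAt
  have h2 : (fun q => fderiv ℝ (fun q : ℂ × ℂ => X q.1 * H q.2) q ξ) =
      fun q : ℂ × ℂ => X q.1 * fderiv ℝ H q.2 ξ.2 + H q.2 * fderiv ℝ X q.1 ξ.1 := by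
    funext q
    rw [(hprod q).fderiv]
    rfl
  have hXx : HasFDerivAt (fun q : ℂ × ℂ => fderiv ℝ X q.1 ξ.1)
      ((ContinuousLinearMap.apply ℝ ℝ ξ.1).comp
        ((fderiv ℝ (fderiv ℝ X) p.1).comp (ContinuousLinearMap.fst ℝ ℂ ℂ))) p :=
    (ContinuousLinearMap.apply ℝ ℝ ξ.1).hasFDerivAt.comp p
      ((hX2 p.1).hasFDerivAt.comp p hasFDerivAt_fst)
  have hHx : HasFDerivAt (fun q : ℂ × ℂ => fderiv ℝ H q.2 ξ.2)
      ((ContinuousLinearMap.apply ℝ ℝ ξ.2).comp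
        ((fderiv ℝ (fderiv ℝ H) p.2).comp (ContinuousLinearMap.snd ℝ ℂ ℂ))) p :=
    (ContinuousLinearMap.apply ℝ ℝ ξ.2).hasFDerivAt.comp p
      ((hH2 p.2).hasFDerivAt.comp p hasFDerivAt_snd)
  have h3 := ((hXq p).mul hHx).add ((hHq p).mul hXx)
  rw [h2] at h1
  have h4 := congrArg (fun L : ℂ × ℂ →L[ℝ] ℝ => L ξ) (h1.unique h3)
  have h5 : fderiv ℝ (fderiv ℝ (fun q : ℂ × ℂ => X q.1 * H q.2)) p ξ ξ =
    (X p.1 * (fderiv ℝ (fderiv ℝ H) p.2 ξ.2 ξ.2) + fderiv ℝ H p.2 ξ.2 * (fderiv ℝ X p.1 ξ.1)) +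
      (H p.2 * (fderiv ℝ (fderiv ℝ X) p.1 ξ.1 ξ.1) + fderiv ℝ X p.1 ξ.1 * (fderiv ℝ H p.2 ξ.2)) := h4
  rw [h5]
  ring

theorem UTST_Lv (X H : ℂ → ℝ) (hX : ContDiff ℝ 2 X) (hH : ContDiff ℝ 2 H) (p ξ : ℂ × ℂ) :
    Lv (fun q : ℂ × ℂ => X q.1 * H q.2) p ξ = ‖ξ.1‖ ^ 2 * Lz X p.1 * H p.2 +
      (fderiv ℝ X p.1 ξ.1 * fderiv ℝ H p.2 ξ.2 +
        fderiv ℝ X p.1 (I * ξ.1) * fderiv ℝ H p.2 (I * ξ.2)) / 2 +
      ‖ξ.2‖ ^ 2 * X p.1 * Lz H p.2 := by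
  unfold Lv Lz
  rw [UTST_snd X H hX hH, UTST_snd X H hX hH]
  have e1 := UTST_bil (fderiv ℝ (fderiv ℝ X) p.1) ξ.1
  have e2 := UTST_bil (fderiv ℝ (fderiv ℝ H) p.2) ξ.2
  have e3 : (I • ξ).1 = I * ξ.1 := rfl
  have e4 : (I • ξ).2 = I * ξ.2 := rfl
  rw [e3, e4]
  linear_combination (H p.2 / 4) * e1 + (X p.1 / 4) * e2

theorem UTST (hTSA : UTSA_stmt) (hTSB : UTSB_stmt) : UTST_stmt := by
  intro s t hs hst ht ht4
  obtain ⟨hX, hX01, hXout, -, hXin, hXd, hXl⟩ := hTSA 2 two_pos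
  obtain ⟨hH, hH01, hHout, hHin, hHd, hHl⟩ := hTSB s t hs hst ht ht4
  have hst' : s < t := by nlinarith
  have hL : 0 < Real.log (t / s) := Real.log_pos ((one_lt_div hs).2 hst')
  have hBB : BB s t = fun q : ℂ × ℂ => XS 2 q.1 * HH s t q.2 := rfl
  have hzero : ∀ p : ℂ × ℂ, (2 ≤ ‖p.1‖ ∨ t ≤ ‖p.2‖) → BB s t p = 0 := by
    intro p hp
    rw [hBB]
    rcases hp with hp | hp
    · show XS 2 p.1 * HH s t p.2 = 0
      rw [(hXout p.1 hp).1, zero_mul]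
    · show XS 2 p.1 * HH s t p.2 = 0
      rw [(hHout p.2 hp).1, mul_zero]
  have hsupp : Function.support (BB s t) ⊆ {p : ℂ × ℂ | ‖p.1‖ ≤ 2 ∧ ‖p.2‖ ≤ t} := by
    intro p hp
    by_contra hn
    apply hp
    apply hzero
    simp only [mem_setOf_eq, not_and_or, not_le] at hn
    rcases hn with h | h
    · exact Or.inl h.le
    · exact Or.inr h.le
  have hclosed : IsClosed {p : ℂ × ℂ | ‖p.1‖ ≤ 2 ∧ ‖p.2‖ ≤ t} := by
    have h1 : IsClosed {p : ℂ × ℂ | ‖p.1‖ ≤ 2} := isClosed_le continuous_fst.norm continuous_const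
    have h2 : IsClosed {p : ℂ × ℂ | ‖p.2‖ ≤ t} := isClosed_le continuous_snd.norm continuous_const
    exact h1.inter h2
  have hcompact : IsCompact {p : ℂ × ℂ | ‖p.1‖ ≤ 2 ∧ ‖p.2‖ ≤ t} := by
    have h1 : {p : ℂ × ℂ | ‖p.1‖ ≤ 2 ∧ ‖p.2‖ ≤ t} = closedBall (0 : ℂ) 2 ×ˢ closedBall (0 : ℂ) t := by
      ext p
      simp [mem_prod]
    rw [h1]
    exact (isCompact_closedBall _ _).prod (isCompact_closedBall _ _)
  have hts : tsupport (BB s t) ⊆ {p : ℂ × ℂ | ‖p.1‖ ≤ 2 ∧ ‖p.2‖ ≤ t} :=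
    closure_minimal hsupp hclosed
  refine ⟨(hX.comp contDiff_fst).mul (hH.comp contDiff_snd),
    hcompact.of_isClosed_subset (isClosed_tsupport _) hts, hts, ?_, ?_, ?_, ?_⟩
  · intro p
    exact ⟨mul_nonneg (hX01 _).1 (hH01 _).1, mul_le_one₀ (hX01 _).2 (hH01 _).1 (hH01 _).2⟩
  · rintro p ⟨h1, h2⟩
    have e1 := hXin p.1 (by linarith)
    have e2 := hHin p.2 h2.le
    show 1 / 8 ≤ XS 2 p.1 * HH s t p.2
    nlinarith
  · intro p hp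
    have hp' : 2 ≤ ‖p.1‖ ∨ t ≤ ‖p.2‖ := by
      by_contra hn
      push Not at hn
      exact hp ⟨hn.1, hn.2⟩
    refine ⟨hzero p hp', fun ξ => ?_⟩
    rw [hBB, UTST_Lv _ _ hX hH]
    rcases hp' with h | h
    · obtain ⟨a, b, c⟩ := hXout p.1 h
      rw [a, b, c]
      simp
    · obtain ⟨a, b⟩ := hHout p.2 h
      have hs1 : 1 - ‖p.2‖ ^ 2 / t ^ 2 ≤ 0 := by
        have : 1 ≤ ‖p.2‖ ^ 2 / t ^ 2 := by
          rw [one_le_div (by positivity)]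
          exact pow_le_pow_left₀ ht.le h 2
        linarith
      have hs2 : 1 - ‖p.2‖ ^ 2 / s ^ 2 ≤ 0 := by
        have : 1 ≤ ‖p.2‖ ^ 2 / s ^ 2 := by
          rw [one_le_div (by positivity)]
          exact pow_le_pow_left₀ hs.le (hst'.le.trans h) 2
        linarith
      have c : Lz (HH s t) p.2 = 0 := by
        rw [hHl, max_eq_left hs1, max_eq_left hs2]
        simp
      rw [a, b, c]
      simp
  · rintro p ⟨hp1, hp2⟩ ξ
    rw [hBB, UTST_Lv _ _ hX hH]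
    have hX0 := (hX01 p.1).1
    have hX1 := (hX01 p.1).2
    have hH0 := (hH01 p.2).1
    have hmax : 0 < max ‖p.2‖ s := lt_max_of_lt_right hs
    -- first term
    have t1 : -(‖ξ.1‖ ^ 2 * Lz (XS 2) p.1 * HH s t p.2) ≤ 2 * ‖ξ.1‖ ^ 2 * HH s t p.2 := by
      have h1 : -Lz (XS 2) p.1 ≤ 2 := by
        have h2 := (abs_le.1 (hXl p.1)).1
        norm_num at h2
        linarith
      have h3 : 0 ≤ ‖ξ.1‖ ^ 2 * HH s t p.2 := by positivity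
      nlinarith
    -- cross term
    have hI : ∀ z : ℂ, ‖I * z‖ = ‖z‖ := by
      intro z
      rw [norm_mul, Complex.norm_I, one_mul]
    have cr : ∀ a b : ℂ, |fderiv ℝ (XS 2) p.1 a * fderiv ℝ (HH s t) p.2 b| ≤
        6 * ‖a‖ * ‖b‖ / (Real.log (t / s) * max ‖p.2‖ s) := by
      intro a b
      rw [abs_mul]
      have h1 := hXd p.1 a
      have h2 := hHd p.2 b
      have h3 : 6 * ‖a‖ * ‖b‖ / (Real.log (t / s) * max ‖p.2‖ s) =
          (6 / 2 * ‖a‖) * (2 * ‖b‖ / (Real.log (t / s) * max ‖p.2‖ s)) := by ring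
      rw [h3]
      exact mul_le_mul h1 h2 (abs_nonneg _) (by positivity)
    have t2 : -((fderiv ℝ (XS 2) p.1 ξ.1 * fderiv ℝ (HH s t) p.2 ξ.2 +
        fderiv ℝ (XS 2) p.1 (I * ξ.1) * fderiv ℝ (HH s t) p.2 (I * ξ.2)) / 2) ≤
        6 * ‖ξ.1‖ * ‖ξ.2‖ / (Real.log (t / s) * max ‖p.2‖ s) := by
      have h1 := (abs_le.1 (cr ξ.1 ξ.2)).1
      have h2 := (abs_le.1 (cr (I * ξ.1) (I * ξ.2))).1
      rw [hI, hI] at h2
      linarith
    -- third term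
    have t3 : -(‖ξ.2‖ ^ 2 * XS 2 p.1 * Lz (HH s t) p.2) ≤
        (if ‖p.2‖ < s then ‖ξ.2‖ ^ 2 / (Real.log (t / s) * s ^ 2) else 0) := by
      rw [hHl]
      have hm1 : 0 ≤ max 0 (1 - ‖p.2‖ ^ 2 / t ^ 2) / t ^ 2 := by positivity
      split_ifs with hps
      · have hm2 : max 0 (1 - ‖p.2‖ ^ 2 / s ^ 2) ≤ 1 := by
          apply max_le zero_le_one
          have : 0 ≤ ‖p.2‖ ^ 2 / s ^ 2 := by positivity
          linarith
        have hm3 : max 0 (1 - ‖p.2‖ ^ 2 / s ^ 2) / s ^ 2 ≤ 1 / s ^ 2 := by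
          gcongr
        have hm4 : -((max 0 (1 - ‖p.2‖ ^ 2 / t ^ 2) / t ^ 2 -
            max 0 (1 - ‖p.2‖ ^ 2 / s ^ 2) / s ^ 2) / Real.log (t / s)) ≤
            1 / s ^ 2 / Real.log (t / s) := by
          rw [← neg_div]
          gcongr
          linarith
        have hm5 : 0 ≤ 1 / s ^ 2 / Real.log (t / s) := by positivity
        have h6 : ‖ξ.2‖ ^ 2 / (Real.log (t / s) * s ^ 2) =
            ‖ξ.2‖ ^ 2 * (1 / s ^ 2 / Real.log (t / s)) := by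
          field_simp
        rw [h6]
        have h7 : -(‖ξ.2‖ ^ 2 * XS 2 p.1 * ((max 0 (1 - ‖p.2‖ ^ 2 / t ^ 2) / t ^ 2 -
            max 0 (1 - ‖p.2‖ ^ 2 / s ^ 2) / s ^ 2) / Real.log (t / s))) =
            ‖ξ.2‖ ^ 2 * (XS 2 p.1 * -((max 0 (1 - ‖p.2‖ ^ 2 / t ^ 2) / t ^ 2 -
            max 0 (1 - ‖p.2‖ ^ 2 / s ^ 2) / s ^ 2) / Real.log (t / s))) := by ring
        rw [h7]
        refine mul_le_mul_of_nonneg_left ?_ (by positivity)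
        calc XS 2 p.1 * -((max 0 (1 - ‖p.2‖ ^ 2 / t ^ 2) / t ^ 2 -
            max 0 (1 - ‖p.2‖ ^ 2 / s ^ 2) / s ^ 2) / Real.log (t / s))
            ≤ XS 2 p.1 * (1 / s ^ 2 / Real.log (t / s)) := mul_le_mul_of_nonneg_left hm4 hX0
          _ ≤ 1 * (1 / s ^ 2 / Real.log (t / s)) := mul_le_mul_of_nonneg_right hX1 hm5
          _ = _ := one_mul _
      · have hs2 : 1 - ‖p.2‖ ^ 2 / s ^ 2 ≤ 0 := by
          have : 1 ≤ ‖p.2‖ ^ 2 / s ^ 2 := by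
            rw [one_le_div (by positivity)]
            exact pow_le_pow_left₀ hs.le (not_lt.1 hps) 2
          linarith
        rw [max_eq_left hs2, zero_div, sub_zero]
        have : 0 ≤ ‖ξ.2‖ ^ 2 * XS 2 p.1 * (max 0 (1 - ‖p.2‖ ^ 2 / t ^ 2) / t ^ 2 /
            Real.log (t / s)) := by positivity
        linarith
    linarith

end

end Pool.Agent.P2U
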