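import Pool.Agent.helper37.P2.SpecB
import Pool.Agent.helper1.P2.KER

/-!
# Row p2:RIE, part A: the density, iterated integrals over matrices
-/

set_option autoImplicit false

open scoped ContDiff Topology ENNReal
open MeasureTheory Filter Set Metric MvPolynomial Pool.Agent.helper37.QA

namespace Pool.Agent.P2

/-! ### the density -/

theorem RIE_bmp_cont : Continuous bmp := by
  unfold bmp
  exact Real.smoothTransition.continuous.comp
    (continuous_const.sub (continuous_const.mul Complex.continuous_normSq))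

theorem RIE_phr_cont (r : ℝ) : Continuous (phr r) := by
  unfold phr
  exact continuous_const.mul (RIE_bmp_cont.comp (continuous_const.mul continuous_id))

theorem RIE_phr_nonneg (r : ℝ) (s : ℂ) : 0 ≤ phr r s := by
  unfold phr bmp
  have := KER_cpos
  have h : 0 ≤ Real.smoothTransition (2 - 4 * Complex.normSq ((r : ℂ)⁻¹ * s)) :=
    Real.smoothTransition.nonneg _
  have h2 : 0 ≤ (∫ t, bmp t)⁻¹ := inv_nonneg.2 this.le
  have h3 : 0 ≤ (r ^ 2)⁻¹ := by positivity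
  exact mul_nonneg (mul_nonneg h3 h2) h

theorem RIE_phr_zero {r : ℝ} (hr : 0 < r) {s : ℂ} (hs : r ≤ ‖s‖) : phr r s = 0 := by
  unfold phr bmp
  have h1 : Complex.normSq ((r : ℂ)⁻¹ * s) = ‖s‖ ^ 2 / r ^ 2 := by
    rw [Complex.normSq_mul, Complex.normSq_inv, Complex.normSq_ofReal, Complex.normSq_eq_norm_sq]
    field_simp
  have h2 : 1 ≤ ‖s‖ ^ 2 / r ^ 2 := by
    rw [one_le_div (by positivity)]
    exact pow_le_pow_left₀ hr.le hs 2
  rw [Real.smoothTransition.zero_of_nonpos (by rw [h1]; linarith), mul_zero]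

theorem RIE_phr_const {r : ℝ} (hr : 0 < r) {s : ℂ} (hs : ‖s‖ ≤ r / 2) :
    phr r s = (r ^ 2)⁻¹ * (∫ t, bmp t)⁻¹ := by
  unfold phr
  have h1 : Complex.normSq ((r : ℂ)⁻¹ * s) = ‖s‖ ^ 2 / r ^ 2 := by
    rw [Complex.normSq_mul, Complex.normSq_inv, Complex.normSq_ofReal, Complex.normSq_eq_norm_sq]
    field_simp
  have h2 : ‖s‖ ^ 2 / r ^ 2 ≤ 1 / 4 := by
    rw [div_le_iff₀ (by positivity)]
    calc ‖s‖ ^ 2 ≤ (r / 2) ^ 2 := pow_le_pow_left₀ (norm_nonneg _) hs 2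
      _ = 1 / 4 * r ^ 2 := by ring
  have h3 : bmp ((r : ℂ)⁻¹ * s) = 1 := by
    unfold bmp
    exact Real.smoothTransition.one_of_one_le (by rw [h1]; linarith)
  rw [h3, mul_one]

theorem RIE_phr_int {r : ℝ} (hr : 0 < r) : ∫ s, phr r s = 1 := by
  have h1 : ∀ s : ℂ, phr r s = (r ^ 2)⁻¹ * (∫ t, bmp t)⁻¹ * bmp ((r⁻¹ : ℝ) • s) := by
    intro s
    unfold phr
    rw [Complex.real_smul, Complex.ofReal_inv]
  simp_rw [h1]
  rw [integral_const_mul, Measure.integral_comp_smul, Complex.finrank_real_complex]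
  have h2 : |((r⁻¹ : ℝ) ^ 2)⁻¹| = r ^ 2 := by
    rw [abs_of_pos (by positivity), inv_pow, inv_inv]
  rw [h2, smul_eq_mul]
  have h3 := KER_cpos.ne'
  field_simp

theorem RIE_phr_integrable {r : ℝ} (hr : 0 < r) : Integrable (phr r) := by
  by_contra h
  have h1 := RIE_phr_int hr
  rw [integral_undef h] at h1
  exact zero_ne_one h1

/-! ### iterated integrals -/

theorem RIE_T3 {X : Type} [MeasureSpace X] [SigmaFinite (volume : Measure X)] [Inhabited X]
    (g : (Fin 3 → X) → ℝ≥0∞) (hg : Measurable g) :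
    ∫⁻ v, g v = ∫⁻ a, ∫⁻ b, ∫⁻ c, g ![a, b, c] := by
  have hu : (Finset.univ : Finset (Fin 3)) = insert 0 (insert 1 {2}) := by decide
  have h0 : (∫⋯∫⁻_Finset.univ, g ∂(fun _ : Fin 3 => (volume : Measure X))) (fun _ => default) =
      ∫⁻ v, g v := by
    rw [lmarginal_univ]
    rfl
  rw [← h0, hu, lmarginal_insert g hg (by decide)]
  refine lintegral_congr fun a => ?_
  rw [lmarginal_insert g hg (by decide)]
  refine lintegral_congr fun b => ?_
  rw [lmarginal_singleton]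
  refine lintegral_congr fun c => ?_
  congr 1
  funext k
  fin_cases k <;> simp [Function.update]

theorem RIE_add {X : Type} [MeasurableSpace X] {μ : Measure X} (w : X → ℝ≥0∞) (hw : Measurable w)
    (hw1 : ∫⁻ s, w s ∂μ ≤ 1) (F G : X → ℝ≥0∞) (e : ℝ≥0∞) (h : ∀ s, w s ≠ 0 → F s ≤ G s + e) :
    ∫⁻ s, w s * F s ∂μ ≤ ∫⁻ s, w s * G s ∂μ + e := by
  have h1 : ∀ s, w s * F s ≤ w s * G s + w s * e := by
    intro s
    by_cases hs : w s = 0
    · rw [hs]
      simp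
    · rw [← mul_add]
      exact mul_le_mul_right (h s hs) _
  calc ∫⁻ s, w s * F s ∂μ ≤ ∫⁻ s, (w s * G s + w s * e) ∂μ := lintegral_mono h1
    _ = ∫⁻ s, w s * G s ∂μ + ∫⁻ s, w s * e ∂μ := lintegral_add_right _ (hw.mul_const e)
    _ = ∫⁻ s, w s * G s ∂μ + (∫⁻ s, w s ∂μ) * e := by rw [lintegral_mul_const _ hw]
    _ ≤ ∫⁻ s, w s * G s ∂μ + 1 * e := by gcongr
    _ = _ := by rw [one_mul]

/-- entries are those of the unit matrix or in the support -/
def RIE_G (φ : ℂ → ℝ≥0∞) (A : M3) : Prop := ∀ i k, A i k = one3 i k ∨ φ (A i k - one3 i k) ≠ 0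

/-- weight of a row -/
noncomputable def RIE_w (φ : ℂ → ℝ≥0∞) (i : Fin 3) (v : Fin 3 → ℂ) : ℝ≥0∞ := ∏ k, φ (v k - one3 i k)

theorem RIE_w_meas {φ : ℂ → ℝ≥0∞} (hφ : Measurable φ) (i : Fin 3) : Measurable (RIE_w φ i) := by
  unfold RIE_w
  refine Finset.measurable_prod _ fun k _ => ?_
  exact hφ.comp ((measurable_pi_apply k).sub_const _)

theorem RIE_w_three (φ : ℂ → ℝ≥0∞) (i : Fin 3) (a b c : ℂ) :
    RIE_w φ i ![a, b, c] = φ (a - one3 i 0) * (φ (b - one3 i 1) * φ (c - one3 i 2)) := by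
  unfold RIE_w
  rw [Fin.prod_univ_three, mul_assoc]
  rfl

theorem RIE_w_int {φ : ℂ → ℝ≥0∞} (hφ : Measurable φ) (hφt : ∀ s, φ s ≠ ⊤) (hφ1 : ∫⁻ s, φ s = 1) (i : Fin 3) :
    ∫⁻ v, RIE_w φ i v = 1 := by
  rw [RIE_T3 _ (RIE_w_meas hφ i)]
  simp_rw [RIE_w_three]
  have h1 : ∀ x : ℂ, ∫⁻ c, φ (c - x) = 1 := fun x => by
    rw [lintegral_sub_right_eq_self φ x, hφ1]
  have e1 : ∀ a b : ℂ, ∫⁻ c, φ (a - one3 i 0) * (φ (b - one3 i 1) * φ (c - one3 i 2)) =
      φ (a - one3 i 0) * φ (b - one3 i 1) := by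
    intro a b
    rw [lintegral_const_mul' _ _ (hφt _), lintegral_const_mul' _ _ (hφt _), h1, mul_one]
  simp_rw [e1]
  have e2 : ∀ a : ℂ, ∫⁻ b, φ (a - one3 i 0) * φ (b - one3 i 1) = φ (a - one3 i 0) := by
    intro a
    rw [lintegral_const_mul' _ _ (hφt _), h1, mul_one]
  simp_rw [e2]
  exact h1 _

theorem RIE_G_adE {φ : ℂ → ℝ≥0∞} {A : M3} (hA : RIE_G φ A) (i k : Fin 3) (s : ℂ) (hs : φ s ≠ 0)
    (h1 : A i k = one3 i k) : RIE_G φ (adE A i k s) := by
  intro i' k'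
  unfold adE
  by_cases h : i' = i ∧ k' = k
  · rw [if_pos h, h.1, h.2, h1]
    right
    rwa [add_sub_cancel_left]
  · rw [if_neg h, add_zero]
    exact hA i' k'

theorem RIE_row {φ : ℂ → ℝ≥0∞} (hφ : Measurable φ) (hφt : ∀ s, φ s ≠ ⊤) (hφ1 : ∫⁻ s, φ s = 1)
    (j : M3 → ℝ≥0∞) (hj : Measurable j) (e : ℝ≥0∞)
    (hstep : ∀ A i k, RIE_G φ A → j A ≤ (∫⁻ s, φ s * j (adE A i k s)) + e) (A : M3) (i : Fin 3)
    (hA : RIE_G φ A) (hi : ∀ k, A i k = one3 i k) :
    j A ≤ (∫⁻ v, RIE_w φ i v * j (Function.update A i v)) + 3 * e := by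
  have h1 := hstep A i 0 hA
  have h2 : ∀ s0, φ s0 ≠ 0 → j (adE A i 0 s0) ≤
      (∫⁻ s1, φ s1 * ∫⁻ s2, φ s2 * j (adE (adE (adE A i 0 s0) i 1 s1) i 2 s2)) + (e + e) := by
    intro s0 hs0
    have g1 : RIE_G φ (adE A i 0 s0) := RIE_G_adE hA i 0 s0 hs0 (hi 0)
    have a1 : adE A i 0 s0 i 1 = one3 i 1 := by
      unfold adE
      rw [if_neg (by simp), add_zero, hi 1]
    have b1 := hstep _ i 1 g1
    have b2 : ∀ s1, φ s1 ≠ 0 → j (adE (adE A i 0 s0) i 1 s1) ≤
        (∫⁻ s2, φ s2 * j (adE (adE (adE A i 0 s0) i 1 s1) i 2 s2)) + e := by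
      intro s1 hs1
      exact hstep _ i 2 (RIE_G_adE g1 i 1 s1 hs1 a1)
    have b3 := RIE_add φ hφ hφ1.le _ _ e b2
    calc j (adE A i 0 s0) ≤ _ + e := b1
      _ ≤ (_ + e) + e := by gcongr
      _ = _ := by rw [add_assoc]
  have h3 := RIE_add φ hφ hφ1.le _ _ (e + e) h2
  have h4 : ∫⁻ v, RIE_w φ i v * j (Function.update A i v) =
      ∫⁻ s0, φ s0 * ∫⁻ s1, φ s1 * ∫⁻ s2, φ s2 * j (adE (adE (adE A i 0 s0) i 1 s1) i 2 s2) := by
    have hm : Measurable fun v => RIE_w φ i v * j (Function.update A i v) :=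
      (RIE_w_meas hφ i).mul (hj.comp (measurable_update A))
    rw [RIE_T3 _ hm]
    rw [← lintegral_sub_right_eq_self (fun s0 => φ s0 * ∫⁻ s1, φ s1 * ∫⁻ s2, φ s2 *
      j (adE (adE (adE A i 0 s0) i 1 s1) i 2 s2)) (one3 i 0)]
    refine lintegral_congr fun a => ?_
    rw [← lintegral_sub_right_eq_self (fun s1 => φ s1 * ∫⁻ s2, φ s2 *
      j (adE (adE (adE A i 0 (a - one3 i 0)) i 1 s1) i 2 s2)) (one3 i 1),
      ← lintegral_const_mul' _ _ (hφt _)]
    refine lintegral_congr fun b => ?_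
    rw [← lintegral_sub_right_eq_self (fun s2 => φ s2 *
      j (adE (adE (adE A i 0 (a - one3 i 0)) i 1 (b - one3 i 1)) i 2 s2)) (one3 i 2),
      ← lintegral_const_mul' _ _ (hφt _), ← lintegral_const_mul' _ _ (hφt _)]
    refine lintegral_congr fun c => ?_
    have h5 : adE (adE (adE A i 0 (a - one3 i 0)) i 1 (b - one3 i 1)) i 2 (c - one3 i 2) =
        Function.update A i ![a, b, c] := by
      funext i' k'
      unfold adE
      by_cases hi' : i' = i
      · subst hi'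
        rw [Function.update_self]
        have := hi k'
        fin_cases k' <;> simp_all
      · rw [Function.update_of_ne hi']
        simp [hi']
    rw [h5, RIE_w_three]
    ring
  rw [h4]
  calc j A ≤ _ + e := h1
    _ ≤ (_ + (e + e)) + e := by gcongr
    _ = _ := by ring

theorem RIE_all {φ : ℂ → ℝ≥0∞} (hφ : Measurable φ) (hφt : ∀ s, φ s ≠ ⊤) (hφ1 : ∫⁻ s, φ s = 1)
    (j : M3 → ℝ≥0∞) (hj : Measurable j) (e : ℝ≥0∞)
    (hstep : ∀ A i k, RIE_G φ A → j A ≤ (∫⁻ s, φ s * j (adE A i k s)) + e) :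
    j one3 ≤ (∫⁻ A : M3, (∏ i, RIE_w φ i (A i)) * j A) + 9 * e := by
  have hw : ∀ (i : Fin 3) (v : Fin 3 → ℂ), RIE_w φ i v ≠ 0 → ∀ k, φ (v k - one3 i k) ≠ 0 := by
    intro i v hv k
    unfold RIE_w at hv
    exact (Finset.prod_ne_zero_iff.1 hv) k (Finset.mem_univ k)
  have g0 : RIE_G φ one3 := fun i k => Or.inl rfl
  have gup : ∀ (A : M3) (i : Fin 3) (v : Fin 3 → ℂ), RIE_G φ A → RIE_w φ i v ≠ 0 →
      RIE_G φ (Function.update A i v) := by
    intro A i v hA hv i' k'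
    by_cases h : i' = i
    · subst h
      rw [Function.update_self]
      exact Or.inr (hw _ v hv k')
    · rw [Function.update_of_ne h]
      exact hA i' k'
  have hrow := RIE_row hφ hφt hφ1 j hj e hstep
  have h1 := hrow one3 0 g0 (fun k => rfl)
  have h2 : ∀ v0, RIE_w φ 0 v0 ≠ 0 → j (Function.update one3 0 v0) ≤
      (∫⁻ v1, RIE_w φ 1 v1 * ∫⁻ v2, RIE_w φ 2 v2 *
        j (Function.update (Function.update (Function.update one3 0 v0) 1 v1) 2 v2)) +
        (3 * e + 3 * e) := by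
    intro v0 hv0
    have g1 := gup one3 0 v0 g0 hv0
    have b1 := hrow _ 1 g1 (fun k => by rw [Function.update_of_ne (by decide)])
    have b2 : ∀ v1, RIE_w φ 1 v1 ≠ 0 → j (Function.update (Function.update one3 0 v0) 1 v1) ≤
        (∫⁻ v2, RIE_w φ 2 v2 *
          j (Function.update (Function.update (Function.update one3 0 v0) 1 v1) 2 v2)) + 3 * e := by
      intro v1 hv1
      exact hrow _ 2 (gup _ 1 v1 g1 hv1) (fun k => by
        rw [Function.update_of_ne (by decide), Function.update_of_ne (by decide)])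
    have b3 := RIE_add (RIE_w φ 1) (RIE_w_meas hφ 1) (RIE_w_int hφ hφt hφ1 1).le _ _ (3 * e) b2
    calc j (Function.update one3 0 v0) ≤ _ + 3 * e := b1
      _ ≤ (_ + 3 * e) + 3 * e := by gcongr
      _ = _ := by rw [add_assoc]
  have h3 := RIE_add (RIE_w φ 0) (RIE_w_meas hφ 0) (RIE_w_int hφ hφt hφ1 0).le _ _ (3 * e + 3 * e) h2
  have hmw : ∀ i : Fin 3, Measurable fun A : M3 => RIE_w φ i (A i) := fun i =>
    (RIE_w_meas hφ i).comp (measurable_pi_apply i)
  have hwt : ∀ i v, RIE_w φ i v ≠ ⊤ := by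
    intro i v
    unfold RIE_w
    exact ENNReal.prod_ne_top fun k _ => hφt _
  have h4 : ∫⁻ A : M3, (∏ i, RIE_w φ i (A i)) * j A =
      ∫⁻ v0, RIE_w φ 0 v0 * ∫⁻ v1, RIE_w φ 1 v1 * ∫⁻ v2, RIE_w φ 2 v2 *
        j (Function.update (Function.update (Function.update one3 0 v0) 1 v1) 2 v2) := by
    have hm : Measurable fun A : M3 => (∏ i, RIE_w φ i (A i)) * j A :=
      (Finset.measurable_prod _ fun i _ => hmw i).mul hj
    rw [RIE_T3 (X := Fin 3 → ℂ) _ hm]
    refine lintegral_congr fun a => ?_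
    rw [← lintegral_const_mul' _ _ (hwt _ _)]
    refine lintegral_congr fun b => ?_
    rw [← lintegral_const_mul' _ _ (hwt _ _), ← lintegral_const_mul' _ _ (hwt _ _)]
    refine lintegral_congr fun c => ?_
    have h5 : Function.update (Function.update (Function.update one3 0 a) 1 b) 2 c =
        (![a, b, c] : M3) := by
      funext i'
      fin_cases i' <;> simp [Function.update]
    rw [h5, Fin.prod_univ_three]
    show RIE_w φ 0 a * RIE_w φ 1 b * RIE_w φ 2 c * j ![a, b, c] = _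
    ring
  rw [h4]
  calc j one3 ≤ _ + 3 * e := h1
    _ ≤ (_ + (3 * e + 3 * e)) + 3 * e := by gcongr
    _ = _ := by ring

end Pool.Agent.P2
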