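import Pool.Agent.helper43.P2.RIEa
import Pool.Agent.helper42.P2.DMS
import Pool.Agent.helper2.P2.UNH
import Pool.Agent.helper43.P2.CHN

/-!
# Row p2:RIE, part B: continuity and measurability
-/

set_option autoImplicit false

open scoped ContDiff Topology ENNReal
open MeasureTheory Filter Set Metric MvPolynomial Pool.Agent.helper37.QA

namespace Pool.Agent.P2

section basic
variable {d : ℕ} (f : Endo 2 d) (N : ℕ)

theorem RIE_It_cd (i : Fin 3) : ContDiff ℂ 1 (fun W : E3 => It f N W i) := by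
  have h : (fun x : E3 => It f N x i) =
      fun x => ∑ s ∈ (iter f.F N i).support, (iter f.F N i).coeff s * ∏ j, x j ^ s j := by
    funext x
    exact eval_eq' x (iter f.F N i)
  rw [h]
  refine ContDiff.sum fun s _ => ?_
  refine contDiff_const.mul ?_
  refine contDiff_prod fun j _ => ?_
  exact (contDiff_apply ℂ ℂ j).pow _

theorem RIE_It_cont : Continuous (It f N) := pmap_cont _

theorem RIE_cc_cont : Continuous (fun p : E3 × E3 => cc f N p.1 p.2) := by
  unfold cc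
  have h0 := (RIE_It_cd f N 0).continuous_fderiv_apply one_ne_zero
  have h1 := (RIE_It_cd f N 1).continuous_fderiv_apply one_ne_zero
  have e : ∀ i : Fin 3, Continuous (fun p : E3 × E3 => It f N p.1 i) := fun i =>
    (continuous_apply i).comp ((RIE_It_cont f N).comp continuous_fst)
  exact ((e 1).mul h0).sub ((e 0).mul h1)

theorem RIE_cc_lin (W X Y : E3) (a b : ℂ) :
    cc f N W (a • X - b • Y) = a * cc f N W X - b * cc f N W Y := by
  unfold cc
  simp only [map_sub, map_smul, smul_eq_mul]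
  ring

variable {f} in
theorem RIE_pq_pos {U : Set (PP 2)} (hG : Good0 f U) {W : E3} (hW : W ∈ cone U) :
    0 < pq (It f N W) := by
  obtain ⟨h, hmem⟩ := UNH_cone hG.1 hW N
  have h0 := Complex.normSq_nonneg (It f N W 0)
  have h1 := Complex.normSq_nonneg (It f N W 1)
  unfold pq
  by_contra hn
  have e0 : Complex.normSq (It f N W 0) = 0 := by linarith
  have e1 : Complex.normSq (It f N W 1) = 0 := by linarith
  exact hG.2 _ h (Complex.normSq_eq_zero.1 e0) (Complex.normSq_eq_zero.1 e1) (subset_closure hmem)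

theorem RIE_pq_cont : Continuous (fun W : E3 => pq (It f N W)) := by
  unfold pq
  have e : ∀ i : Fin 3, Continuous (fun W : E3 => It f N W i) := fun i =>
    (continuous_apply i).comp (RIE_It_cont f N)
  exact (Complex.continuous_normSq.comp (e 0)).add (Complex.continuous_normSq.comp (e 1))

/-- density in terms of the point and the tangent vector -/
noncomputable def RIE_T (W X : E3) : ℝ :=
  (1 / 2) * Complex.normSq (cc f N W X) / pq (It f N W) ^ 2 / (d : ℝ) ^ N

theorem RIE_mv_cont : Continuous (fun p : M3 × E3 => mv p.1 p.2) := by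
  unfold mv
  refine continuous_pi fun i => ?_
  refine continuous_finsetSum _ fun j _ => ?_
  have h1 : Continuous fun p : M3 × E3 => p.1 i j :=
    (continuous_apply j).comp ((continuous_apply i).comp continuous_fst)
  have h2 : Continuous fun p : M3 × E3 => p.2 j := (continuous_apply j).comp continuous_snd
  exact h1.mul h2

theorem RIE_mv_deriv {Z : ℂ → E3} {z : ℂ} (hZ : DifferentiableAt ℂ Z z) (A : M3) :
    HasDerivAt (fun z => mv A (Z z)) (mv A (deriv Z z)) z := by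
  rw [hasDerivAt_pi]
  intro i
  have h := hasDerivAt_pi.1 hZ.hasDerivAt
  exact HasDerivAt.fun_sum fun j _ => (h j).const_mul (A i j)

theorem RIE_tau {Z : ℂ → E3} {z : ℂ} (hZ : DifferentiableAt ℂ Z z) (A : M3) :
    tau f N (fun z => mv A (Z z)) z = RIE_T f N (mv A (Z z)) (mv A (deriv Z z)) := by
  have h : ∀ i : Fin 3, deriv (fun z => It f N (mv A (Z z)) i) z =
      fderiv ℂ (fun W => It f N W i) (mv A (Z z)) (mv A (deriv Z z)) := by
    intro i
    have h1 : HasFDerivAt (fun W : E3 => It f N W i) (fderiv ℂ (fun W => It f N W i) (mv A (Z z)))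
        (mv A (Z z)) := ((RIE_It_cd f N i).differentiable one_ne_zero _).hasFDerivAt
    exact (h1.comp_hasDerivAt z (RIE_mv_deriv hZ A)).deriv
  unfold tau RIE_T cc
  rw [h 0, h 1]

theorem RIE_mv_one (Z : E3) : mv one3 Z = Z := by
  funext i
  unfold mv one3
  fin_cases i <;> simp

end basic

section disc
variable {d : ℕ} {f : Endo 2 d} {N : ℕ} {U : Set (PP 2)} {r : ℝ} {Z : ℂ → E3}

/-- the domain of the perturbed discs -/
def RIE_O (r : ℝ) : Set (M3 × ℂ) := {p | Near r p.1 ∧ p.2 ∈ ball (0 : ℂ) 1}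

theorem RIE_near_open (r : ℝ) : IsOpen {A : M3 | Near r A} := by
  have h : {A : M3 | Near r A} = ⋂ i, ⋂ j, {A : M3 | ‖A i j - one3 i j‖ < r} := by
    ext A
    simp [Near]
  rw [h]
  refine isOpen_iInter_of_finite fun i => isOpen_iInter_of_finite fun j => ?_
  have hc0 : Continuous (fun A : M3 => A i j) := (continuous_apply j).comp (continuous_apply i)
  have hc : Continuous (fun A : M3 => ‖A i j - one3 i j‖) := (hc0.sub continuous_const).norm
  exact isOpen_lt hc continuous_const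

theorem RIE_O_open (r : ℝ) : IsOpen (RIE_O r) := by
  have h : RIE_O r = {A : M3 | Near r A} ×ˢ ball (0 : ℂ) 1 := rfl
  rw [h]
  exact (RIE_near_open r).prod isOpen_ball

theorem RIE_mem (hR : Rad r (f.map '' closure U) U) (hZ : Dsc (f.map '' closure U) Z)
    {A : M3} (hA : Near r A) {z : ℂ} (hz : z ∈ ball (0 : ℂ) 1) : mv A (Z z) ∈ cone U :=
  hR A hA _ (hZ.2 z hz)

theorem RIE_comp {X Y : Type} [TopologicalSpace X] [TopologicalSpace Y] (g : Y → ℝ) (G : X → Y)
    (S : Set X) (T : Set Y) (hg : ContinuousOn g T) (hG : ContinuousOn G S) (h : MapsTo G S T) :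
    ContinuousOn (fun p => g (G p)) S :=
  ContinuousOn.comp hg hG h

theorem RIE_compc {X Y W : Type} [TopologicalSpace X] [TopologicalSpace Y] [TopologicalSpace W]
    (g : Y → W) (G : X → Y) (hg : Continuous g) (hG : Continuous G) : Continuous (fun p => g (G p)) :=
  hg.comp hG

theorem RIE_c1 (hZ : Dsc (f.map '' closure U) Z) :
    ContinuousOn (fun p : M3 × ℂ => Z p.2) (RIE_O r) :=
  hZ.1.continuousOn.comp continuousOn_snd fun _ hp => hp.2

theorem RIE_c2 (hZ : Dsc (f.map '' closure U) Z) :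
    ContinuousOn (fun p : M3 × ℂ => deriv Z p.2) (RIE_O r) :=
  (hZ.1.deriv isOpen_ball).continuousOn.comp continuousOn_snd fun _ hp => hp.2

theorem RIE_c3 {G : M3 × ℂ → E3} (hG : ContinuousOn G (RIE_O r)) :
    ContinuousOn (fun p : M3 × ℂ => mv p.1 (G p)) (RIE_O r) :=
  RIE_mv_cont.comp_continuousOn (continuousOn_fst.prodMk hG)

theorem RIE_c4 (hZ : Dsc (f.map '' closure U) Z) : ContinuousOn
    (fun p : M3 × ℂ => (mv p.1 (Z p.2), mv p.1 (deriv Z p.2), Z p.2)) (RIE_O r) := by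
  have h1 := RIE_c3 (RIE_c1 (r := r) hZ)
  have h2 := RIE_c3 (RIE_c2 (r := r) hZ)
  exact h1.prodMk (h2.prodMk (RIE_c1 hZ))

theorem RIE_c5 (hR : Rad r (f.map '' closure U) U) (hZ : Dsc (f.map '' closure U) Z) :
    MapsTo (fun p : M3 × ℂ => (mv p.1 (Z p.2), mv p.1 (deriv Z p.2), Z p.2)) (RIE_O r)
      (cone U ×ˢ univ) := by
  intro p hp
  have h5 : Near r p.1 := hp.1
  have h6 : p.2 ∈ ball (0 : ℂ) 1 := hp.2
  have h7 : mv p.1 (Z p.2) ∈ cone U := RIE_mem hR hZ h5 h6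
  refine Set.mem_prod.2 ⟨h7, ?_⟩
  exact mem_univ _

theorem RIE_contO (hR : Rad r (f.map '' closure U) U) (hZ : Dsc (f.map '' closure U) Z)
    (g : E3 × E3 × E3 → ℝ) (hg : ContinuousOn g (cone U ×ˢ univ)) :
    ContinuousOn (fun p : M3 × ℂ => g (mv p.1 (Z p.2), mv p.1 (deriv Z p.2), Z p.2)) (RIE_O r) :=
  RIE_comp g (fun p : M3 × ℂ => (mv p.1 (Z p.2), mv p.1 (deriv Z p.2), Z p.2)) (RIE_O r)
    (cone U ×ˢ univ) hg (RIE_c4 hZ) (RIE_c5 hR hZ)

theorem RIE_T_cont (hG : Good0 f U) :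
    ContinuousOn (fun p : E3 × E3 × E3 => RIE_T f N p.1 p.2.1) (cone U ×ˢ univ) := by
  unfold RIE_T
  have h0 : Continuous (fun p : E3 × E3 × E3 => (p.1, p.2.1)) :=
    continuous_fst.prodMk (continuous_fst.comp continuous_snd)
  have h1 : Continuous (fun p : E3 × E3 × E3 => cc f N p.1 p.2.1) :=
    RIE_compc (fun p : E3 × E3 => cc f N p.1 p.2) (fun p : E3 × E3 × E3 => (p.1, p.2.1))
      (RIE_cc_cont f N) h0
  have h3 : Continuous (fun p : E3 × E3 × E3 => pq (It f N p.1)) :=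
    RIE_compc (fun W : E3 => pq (It f N W)) (fun p : E3 × E3 × E3 => p.1) (RIE_pq_cont f N)
      continuous_fst
  have h2 : Continuous (fun p : E3 × E3 × E3 => pq (It f N p.1) ^ 2) := h3.pow 2
  refine ContinuousOn.div_const (ContinuousOn.div ?_ h2.continuousOn ?_) _
  · exact (continuous_const.mul (Complex.continuous_normSq.comp h1)).continuousOn
  · rintro p ⟨hp, -⟩
    exact pow_ne_zero 2 (RIE_pq_pos N hG hp).ne'

theorem RIE_eta_zero {z : ℂ} (hz : z ∉ ball (0 : ℂ) 1) : eta z ^ 2 = 0 :=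
  image_eq_zero_of_notMem_tsupport (f := fun z : ℂ => eta z ^ 2) (fun h => hz (DMS_eta.2 h))

theorem RIE_eta_comp : HasCompactSupport (fun z : ℂ => eta z ^ 2) :=
  IsCompact.of_isClosed_subset (isCompact_closedBall (0 : ℂ) 1) (isClosed_tsupport _)
    (DMS_eta.2.trans ball_subset_closedBall)

theorem RIE_eta_int {h : ℂ → ℝ} (hh : ContinuousOn h (ball 0 1)) :
    Integrable (fun z => eta z ^ 2 * h z) :=
  MSS_integrable isOpen_ball DMS_eta.1.continuous DMS_eta.2 RIE_eta_comp hh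

/-- slices -/
theorem RIE_slice {h : M3 × ℂ → ℝ} (hh : ContinuousOn h (RIE_O r)) {A : M3} (hA : Near r A) :
    ContinuousOn (fun z => h (A, z)) (ball 0 1) :=
  hh.comp (continuousOn_const.prodMk continuousOn_id) fun _ hz => ⟨hA, hz⟩

open Classical in
/-- extension by zero -/
noncomputable def RIE_ext (r : ℝ) (h : M3 × ℂ → ℝ) : M3 × ℂ → ℝ := (RIE_O r).piecewise h (fun _ => 0)

theorem RIE_ext_meas {h : M3 × ℂ → ℝ} (hh : ContinuousOn h (RIE_O r)) : Measurable (RIE_ext r h) := by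
  classical
  unfold RIE_ext
  exact hh.measurable_piecewise continuousOn_const (RIE_O_open r).measurableSet

theorem RIE_ext_eq {h : M3 × ℂ → ℝ} {A : M3} (hA : Near r A) (z : ℂ) :
    eta z ^ 2 * RIE_ext r h (A, z) = eta z ^ 2 * h (A, z) := by
  classical
  by_cases hz : z ∈ ball (0 : ℂ) 1
  · unfold RIE_ext
    rw [Set.piecewise_eq_of_mem _ _ _ (show (A, z) ∈ RIE_O r from ⟨hA, hz⟩)]
  · rw [RIE_eta_zero hz, zero_mul, zero_mul]

/-- integrals with parameters are measurable -/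
theorem RIE_param {h : M3 × ℂ → ℝ} (hh : ContinuousOn h (RIE_O r)) :
    Measurable (fun A : M3 => ∫ z, eta z ^ 2 * RIE_ext r h (A, z)) := by
  have h1 : Measurable (fun p : M3 × ℂ => eta p.2 ^ 2 * RIE_ext r h p) :=
    (DMS_eta.1.continuous.measurable.comp measurable_snd).mul (RIE_ext_meas hh)
  exact (h1.stronglyMeasurable.integral_prod_right').measurable

theorem RIE_lparam {h : M3 × ℂ → ℝ} (hh : ContinuousOn h (RIE_O r)) :
    Measurable (fun A : M3 => ∫⁻ z, ENNReal.ofReal (eta z ^ 2 * RIE_ext r h (A, z))) := by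
  have h1 : Measurable (fun p : M3 × ℂ => ENNReal.ofReal (eta p.2 ^ 2 * RIE_ext r h p)) :=
    ((DMS_eta.1.continuous.measurable.comp measurable_snd).mul (RIE_ext_meas hh)).ennreal_ofReal
  exact h1.lintegral_prod_right'

end disc

section jf
variable {d : ℕ} {f : Endo 2 d} {N : ℕ} {U : Set (PP 2)} {r : ℝ} {Z : ℂ → E3} {Ψ : E3 → ℝ} {B : ℝ}

theorem RIE_cont2 (hG : Good0 f U) (hR : Rad r (f.map '' closure U) U)
    (hZ : Dsc (f.map '' closure U) Z) : ContinuousOn
      (fun p : M3 × ℂ => RIE_T f N (mv p.1 (Z p.2)) (mv p.1 (deriv Z p.2))) (RIE_O r) :=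
  RIE_contO hR hZ (fun p => RIE_T f N p.1 p.2.1) (RIE_T_cont hG)

theorem RIE_cont1 (hG : Good0 f U) (hR : Rad r (f.map '' closure U) U)
    (hZ : Dsc (f.map '' closure U) Z) (hA : Adm f U N Ψ B) : ContinuousOn
      (fun p : M3 × ℂ => Ψ (mv p.1 (Z p.2)) * RIE_T f N (mv p.1 (Z p.2)) (mv p.1 (deriv Z p.2)))
      (RIE_O r) := by
  refine RIE_contO hR hZ (fun p => Ψ p.1 * RIE_T f N p.1 p.2.1) ?_
  refine ContinuousOn.mul ?_ (RIE_T_cont hG)
  exact hA.1.continuousOn.comp continuousOn_fst fun p hp => hp.1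

/-- the measurable version of `Jf` -/
noncomputable def RIE_J {d : ℕ} (f : Endo 2 d) (N : ℕ) (r : ℝ) (Z : ℂ → E3) (Ψ : E3 → ℝ) (A : M3) : ℝ :=
  (∫ z, eta z ^ 2 * RIE_ext r (fun p : M3 × ℂ => Ψ (mv p.1 (Z p.2)) *
    RIE_T f N (mv p.1 (Z p.2)) (mv p.1 (deriv Z p.2))) (A, z)) /
  ∫ z, eta z ^ 2 * RIE_ext r (fun p : M3 × ℂ => RIE_T f N (mv p.1 (Z p.2)) (mv p.1 (deriv Z p.2))) (A, z)

theorem RIE_J_meas (hG : Good0 f U) (hR : Rad r (f.map '' closure U) U)
    (hZ : Dsc (f.map '' closure U) Z) (hA : Adm f U N Ψ B) : Measurable (RIE_J f N r Z Ψ) :=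
  (RIE_param (RIE_cont1 hG hR hZ hA)).div (RIE_param (RIE_cont2 hG hR hZ))

theorem RIE_tau_all (hZ : Dsc (f.map '' closure U) Z) (A : M3) (z : ℂ) (c : ℝ) :
    eta z ^ 2 * (c * tau f N (fun z => mv A (Z z)) z) =
      eta z ^ 2 * (c * RIE_T f N (mv A (Z z)) (mv A (deriv Z z))) := by
  by_cases hz : z ∈ ball (0 : ℂ) 1
  · rw [RIE_tau f N (hZ.1.differentiableAt (isOpen_ball.mem_nhds hz)) A]
  · rw [RIE_eta_zero hz, zero_mul, zero_mul]

theorem RIE_J_eq (hZ : Dsc (f.map '' closure U) Z) {A : M3} (hA : Near r A) :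
    Jf f N Ψ (fun z => mv A (Z z)) = RIE_J f N r Z Ψ A := by
  unfold Jf RIE_J mass
  congr 1
  · refine integral_congr_ae (Eventually.of_forall fun z => ?_)
    show eta z ^ 2 * (Ψ (mv A (Z z)) * tau f N (fun z => mv A (Z z)) z) = _
    rw [RIE_tau_all hZ]
    exact (RIE_ext_eq (h := fun p : M3 × ℂ => Ψ (mv p.1 (Z p.2)) *
      RIE_T f N (mv p.1 (Z p.2)) (mv p.1 (deriv Z p.2))) hA z).symm
  · refine integral_congr_ae (Eventually.of_forall fun z => ?_)
    show eta z ^ 2 * tau f N (fun z => mv A (Z z)) z = _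
    have := RIE_tau_all (N := N) hZ A z 1
    rw [one_mul, one_mul] at this
    rw [this]
    exact (RIE_ext_eq (h := fun p : M3 × ℂ => RIE_T f N (mv p.1 (Z p.2)) (mv p.1 (deriv Z p.2))) hA z).symm

theorem RIE_T_nonneg {d : ℕ} (f : Endo 2 d) (N : ℕ) (W X : E3) : 0 ≤ RIE_T f N W X := by
  unfold RIE_T
  have := Complex.normSq_nonneg (cc f N W X)
  positivity

theorem RIE_J_bound (hG : Good0 f U) (hR : Rad r (f.map '' closure U) U)
    (hZ : Dsc (f.map '' closure U) Z) (hA : Adm f U N Ψ B) (hB : 0 ≤ B) {A : M3} (hr : Near r A) :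
    |RIE_J f N r Z Ψ A| ≤ B := by
  unfold RIE_J
  have e1 : (∫ z, eta z ^ 2 * RIE_ext r (fun p : M3 × ℂ => Ψ (mv p.1 (Z p.2)) *
      RIE_T f N (mv p.1 (Z p.2)) (mv p.1 (deriv Z p.2))) (A, z)) =
      ∫ z, eta z ^ 2 * (Ψ (mv A (Z z)) * RIE_T f N (mv A (Z z)) (mv A (deriv Z z))) := by
    refine integral_congr_ae (Eventually.of_forall fun z => ?_)
    exact RIE_ext_eq hr z
  have e2 : (∫ z, eta z ^ 2 * RIE_ext r (fun p : M3 × ℂ =>
      RIE_T f N (mv p.1 (Z p.2)) (mv p.1 (deriv Z p.2))) (A, z)) =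
      ∫ z, eta z ^ 2 * RIE_T f N (mv A (Z z)) (mv A (deriv Z z)) := by
    refine integral_congr_ae (Eventually.of_forall fun z => ?_)
    exact RIE_ext_eq hr z
  rw [e1, e2]
  have h2 : 0 ≤ ∫ z, eta z ^ 2 * RIE_T f N (mv A (Z z)) (mv A (deriv Z z)) :=
    integral_nonneg fun z => mul_nonneg (sq_nonneg _) (RIE_T_nonneg _ _ _ _)
  have h1 : |∫ z, eta z ^ 2 * (Ψ (mv A (Z z)) * RIE_T f N (mv A (Z z)) (mv A (deriv Z z)))| ≤
      B * ∫ z, eta z ^ 2 * RIE_T f N (mv A (Z z)) (mv A (deriv Z z)) := by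
    rw [← integral_const_mul, ← Real.norm_eq_abs]
    refine norm_integral_le_of_norm_le
      ((RIE_eta_int (RIE_slice (RIE_cont2 hG hR hZ) hr)).const_mul B)
      (Eventually.of_forall fun z => ?_)
    show ‖eta z ^ 2 * (Ψ (mv A (Z z)) * RIE_T f N (mv A (Z z)) (mv A (deriv Z z)))‖ ≤
      B * (eta z ^ 2 * RIE_T f N (mv A (Z z)) (mv A (deriv Z z)))
    by_cases hz : z ∈ ball (0 : ℂ) 1
    · rw [norm_mul, norm_mul, Real.norm_eq_abs, Real.norm_eq_abs, Real.norm_eq_abs,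
        abs_of_nonneg (sq_nonneg (eta z)), abs_of_nonneg (RIE_T_nonneg _ _ _ _)]
      have h3 := hA.2.1 _ (RIE_mem hR hZ hr hz)
      have h4 : 0 ≤ eta z ^ 2 * RIE_T f N (mv A (Z z)) (mv A (deriv Z z)) :=
        mul_nonneg (sq_nonneg _) (RIE_T_nonneg _ _ _ _)
      nlinarith
    · rw [RIE_eta_zero hz, zero_mul, zero_mul, mul_zero, norm_zero]
  rw [abs_div, abs_of_nonneg h2]
  rcases h2.eq_or_lt with h | h
  · rw [← h, div_zero]
    exact hB
  · rw [div_le_iff₀ h]
    exact h1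

end jf

end Pool.Agent.P2
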