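import Pool.Agent.helper43.P2.RIEb

/-!
# Row p2:RIE, part C: averaging over the matrices
-/

set_option autoImplicit false

open scoped ContDiff Topology ENNReal
open MeasureTheory Filter Set Metric MvPolynomial Pool.Agent.helper37.QA

namespace Pool.Agent.P2

/-- the density with values in `ℝ≥0∞` -/
noncomputable def RIE_phi (r : ℝ) (s : ℂ) : ℝ≥0∞ := ENNReal.ofReal (phr r s)

theorem RIE_phi_meas (r : ℝ) : Measurable (RIE_phi r) := (RIE_phr_cont r).measurable.ennreal_ofReal

theorem RIE_phi_top (r : ℝ) (s : ℂ) : RIE_phi r s ≠ ⊤ := ENNReal.ofReal_ne_top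

theorem RIE_phi_int {r : ℝ} (hr : 0 < r) : ∫⁻ s, RIE_phi r s = 1 := by
  have h := ofReal_integral_eq_lintegral_ofReal (RIE_phr_integrable hr)
    (Eventually.of_forall (RIE_phr_nonneg r))
  rw [RIE_phr_int hr, ENNReal.ofReal_one] at h
  exact h.symm

theorem RIE_phr_small {r : ℝ} (hr : 0 < r) {s : ℂ} (hs : phr r s ≠ 0) : ‖s‖ < r := by
  by_contra hn
  exact hs (RIE_phr_zero hr (not_lt.1 hn))

theorem RIE_phi_small {r : ℝ} (hr : 0 < r) {s : ℂ} (hs : RIE_phi r s ≠ 0) : ‖s‖ < r := by
  refine RIE_phr_small hr fun h => hs ?_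
  unfold RIE_phi
  rw [h, ENNReal.ofReal_zero]

theorem RIE_G_near {r : ℝ} (hr : 0 < r) {A : M3} (hA : RIE_G (RIE_phi r) A) : Near r A := by
  intro i j
  rcases hA i j with h | h
  · rw [h, sub_self, norm_zero]
    exact hr
  · exact RIE_phi_small hr h

theorem RIE_near_one {r : ℝ} (hr : 0 < r) : Near r one3 := by
  intro i j
  rw [sub_self, norm_zero]
  exact hr

theorem RIE_near_mono {a b : ℝ} (h : a ≤ b) {A : M3} (hA : Near a A) : Near b A :=
  fun i j => (hA i j).trans_le h

theorem RIE_near_adE {a b c : ℝ} {A : M3} (hA : Near a A) (i k : Fin 3) {s : ℂ} (hs : ‖s‖ < b)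
    (h : a + b ≤ c) : Near c (adE A i k s) := by
  intro i' k'
  have h1 := hA i' k'
  have h2 := norm_nonneg s
  unfold adE
  split_ifs
  · have e : A i' k' + s - one3 i' k' = (A i' k' - one3 i' k') + s := by ring
    rw [e]
    calc ‖(A i' k' - one3 i' k') + s‖ ≤ ‖A i' k' - one3 i' k'‖ + ‖s‖ := norm_add_le _ _
      _ < c := by linarith
  · rw [add_zero]
    linarith

theorem RIE_rho_nonneg (r : ℝ) (A : M3) : 0 ≤ rho r A :=
  Finset.prod_nonneg fun _ _ => Finset.prod_nonneg fun _ _ => RIE_phr_nonneg _ _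

theorem RIE_rho_prod (r : ℝ) (A : M3) : ∏ i, RIE_w (RIE_phi r) i (A i) = ENNReal.ofReal (rho r A) := by
  unfold rho RIE_w RIE_phi
  rw [ENNReal.ofReal_prod_of_nonneg
    (fun i _ => Finset.prod_nonneg fun j _ => RIE_phr_nonneg _ _)]
  refine Finset.prod_congr rfl fun i _ => ?_
  rw [ENNReal.ofReal_prod_of_nonneg (fun j _ => RIE_phr_nonneg _ _)]

theorem RIE_rho_near {r : ℝ} (hr : 0 < r) {A : M3} (h : rho r A ≠ 0) : Near r A := by
  intro i j
  by_contra hn
  apply h
  unfold rho
  exact Finset.prod_eq_zero (Finset.mem_univ i)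
    (Finset.prod_eq_zero (Finset.mem_univ j) (RIE_phr_zero hr (not_lt.1 hn)))

theorem RIE_rho_cont (r : ℝ) : Continuous (rho r) := by
  unfold rho
  refine continuous_finsetProd _ fun i _ => continuous_finsetProd _ fun j _ => ?_
  have hc0 : Continuous (fun A : M3 => A i j) := (continuous_apply j).comp (continuous_apply i)
  exact (RIE_phr_cont r).comp (hc0.sub continuous_const)

theorem RIE_rho_lint {r : ℝ} (hr : 0 < r) : ∫⁻ A : M3, ENNReal.ofReal (rho r A) = 1 := by
  have hm : Measurable fun A : M3 => ENNReal.ofReal (rho r A) :=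
    (RIE_rho_cont r).measurable.ennreal_ofReal
  rw [RIE_T3 (X := Fin 3 → ℂ) _ hm]
  have e : ∀ a b c : Fin 3 → ℂ, ENNReal.ofReal (rho r ![a, b, c]) =
      RIE_w (RIE_phi r) 0 a * (RIE_w (RIE_phi r) 1 b * RIE_w (RIE_phi r) 2 c) := by
    intro a b c
    rw [← RIE_rho_prod, Fin.prod_univ_three, mul_assoc]
    rfl
  simp_rw [e]
  have hw := RIE_w_int (RIE_phi_meas r) (RIE_phi_top r) (RIE_phi_int hr)
  have hwt : ∀ i v, RIE_w (RIE_phi r) i v ≠ ⊤ := by
    intro i v
    unfold RIE_w
    exact ENNReal.prod_ne_top fun k _ => RIE_phi_top _ _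
  have e1 : ∀ a b : Fin 3 → ℂ, ∫⁻ c, RIE_w (RIE_phi r) 0 a * (RIE_w (RIE_phi r) 1 b *
      RIE_w (RIE_phi r) 2 c) = RIE_w (RIE_phi r) 0 a * RIE_w (RIE_phi r) 1 b := by
    intro a b
    rw [lintegral_const_mul' _ _ (hwt _ _), lintegral_const_mul' _ _ (hwt _ _), hw, mul_one]
  simp_rw [e1]
  have e2 : ∀ a : Fin 3 → ℂ, ∫⁻ b, RIE_w (RIE_phi r) 0 a * RIE_w (RIE_phi r) 1 b =
      RIE_w (RIE_phi r) 0 a := by
    intro a
    rw [lintegral_const_mul' _ _ (hwt _ _), hw, mul_one]
  simp_rw [e2]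
  exact hw 0

theorem RIE_rho_integrable {r : ℝ} (hr : 0 < r) : Integrable (rho r) := by
  refine ⟨(RIE_rho_cont r).aestronglyMeasurable,
    (hasFiniteIntegral_iff_ofReal (Eventually.of_forall (RIE_rho_nonneg r))).2 ?_⟩
  rw [RIE_rho_lint hr]
  exact ENNReal.one_lt_top

theorem RIE_rho_int {r : ℝ} (hr : 0 < r) : ∫ A, rho r A = 1 := by
  rw [integral_eq_lintegral_of_nonneg_ae (Eventually.of_forall (RIE_rho_nonneg r))
    (RIE_rho_cont r).aestronglyMeasurable, RIE_rho_lint hr, ENNReal.toReal_one]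

/-! ### weighted integrals -/

theorem RIE_wint {X : Type} [MeasurableSpace X] {μ : Measure X} (w g : X → ℝ) (hw : Integrable w μ)
    (hw0 : ∀ x, 0 ≤ w x) (hg : Measurable g) (b : ℝ) (hb : ∀ x, w x ≠ 0 → |g x| ≤ b) :
    Integrable (fun x => w x * g x) μ := by
  refine Integrable.mono' (hw.const_mul b) (hw.1.mul hg.aestronglyMeasurable)
    (Eventually.of_forall fun x => ?_)
  show ‖w x * g x‖ ≤ b * w x
  by_cases h : w x = 0
  · rw [h]
    simp
  · rw [norm_mul, Real.norm_eq_abs, Real.norm_eq_abs, abs_of_nonneg (hw0 x), mul_comm]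
    exact mul_le_mul_of_nonneg_right (hb x h) (hw0 x)

theorem RIE_conv {X : Type} [MeasurableSpace X] {μ : Measure X} (w g : X → ℝ) (hw : Integrable w μ)
    (hw0 : ∀ x, 0 ≤ w x) (hw1 : ∫ x, w x ∂μ = 1) (hg : Measurable g) (B : ℝ) (j : X → ℝ≥0∞)
    (hb : ∀ x, w x ≠ 0 → |g x| ≤ B ∧ j x = ENNReal.ofReal (g x + B)) :
    (∫⁻ x, ENNReal.ofReal (w x) * j x ∂μ = ENNReal.ofReal ((∫ x, w x * g x ∂μ) + B)) ∧
      0 ≤ (∫ x, w x * g x ∂μ) + B := by
  have hi := RIE_wint w g hw hw0 hg B (fun x hx => (hb x hx).1)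
  have hwB : Integrable (fun x => w x * B) μ := hw.mul_const B
  have h1 : (∫ x, w x * g x ∂μ) + B = ∫ x, (w x * g x + w x * B) ∂μ := by
    rw [integral_add hi hwB, integral_mul_const, hw1, one_mul]
  have h2 : ∀ x, 0 ≤ w x * g x + w x * B := by
    intro x
    by_cases h : w x = 0
    · rw [h]
      simp
    · rw [← mul_add]
      exact mul_nonneg (hw0 x) (by linarith [neg_le_of_abs_le (hb x h).1])
  rw [h1]
  refine ⟨?_, integral_nonneg h2⟩
  have h3 : Integrable (fun x => w x * g x + w x * B) μ := hi.add hwB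
  rw [ofReal_integral_eq_lintegral_ofReal h3 (Eventually.of_forall h2)]
  refine lintegral_congr fun x => ?_
  by_cases h : w x = 0
  · rw [h]
    simp
  · rw [(hb x h).2, ← mul_add, ENNReal.ofReal_mul (hw0 x)]

theorem RIE_adE_cont (i k : Fin 3) : Continuous (fun p : M3 × ℂ => adE p.1 i k p.2) := by
  refine continuous_pi fun i' => continuous_pi fun k' => ?_
  show Continuous (fun p : M3 × ℂ => p.1 i' k' + if i' = i ∧ k' = k then p.2 else 0)
  have hc0 : Continuous (fun p : M3 × ℂ => p.1 i' k') :=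
    (continuous_apply k').comp ((continuous_apply i').comp continuous_fst)
  split_ifs
  · exact hc0.add continuous_snd
  · exact hc0.add continuous_const

theorem RIE_adE_meas (A : M3) (i k : Fin 3) : Measurable (fun s : ℂ => adE A i k s) :=
  ((RIE_adE_cont i k).comp (continuous_const.prodMk continuous_id)).measurable

theorem RIE_one {r : ℝ} (hr : 0 < r) (J : M3 → ℝ) (hJ : Measurable J) (B err : ℝ)
    (hB : ∀ A, Near r A → |J A| ≤ B) (he : 0 ≤ err)
    (hstep : ∀ A i k, Near (r / 8) A → J A ≤ (∫ s, phr (r / 8) s * J (adE A i k s)) + err) :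
    J one3 ≤ (∫ A, rho (r / 8) A * J A) + 9 * err := by
  classical
  have hr8 : 0 < r / 8 := by positivity
  let j : M3 → ℝ≥0∞ := fun A => if Near r A then ENNReal.ofReal (J A + B) else 0
  have hjn : ∀ A, Near r A → j A = ENNReal.ofReal (J A + B) := fun A hA => if_pos hA
  have hj : Measurable j :=
    Measurable.ite (RIE_near_open r).measurableSet (hJ.add_const B).ennreal_ofReal measurable_const
  have key := RIE_all (φ := RIE_phi (r / 8)) (RIE_phi_meas _) (RIE_phi_top _) (RIE_phi_int hr8) j hj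
    (ENNReal.ofReal err) (by
      intro A i k hA
      have hA8 : Near (r / 8) A := RIE_G_near hr8 hA
      have h1 := RIE_conv (phr (r / 8)) (fun s => J (adE A i k s)) (RIE_phr_integrable hr8)
        (RIE_phr_nonneg _) (RIE_phr_int hr8) (hJ.comp (RIE_adE_meas A i k)) B
        (fun s => j (adE A i k s)) (by
          intro s hs
          have h2 : Near r (adE A i k s) :=
            RIE_near_adE hA8 i k (RIE_phr_small hr8 hs) (by linarith)
          exact ⟨hB _ h2, hjn _ h2⟩)
      have h3 : ∫⁻ s, RIE_phi (r / 8) s * j (adE A i k s) =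
          ENNReal.ofReal ((∫ s, phr (r / 8) s * J (adE A i k s)) + B) := h1.1
      rw [h3, hjn A (RIE_near_mono (by linarith) hA8), ← ENNReal.ofReal_add h1.2 he]
      refine ENNReal.ofReal_le_ofReal ?_
      linarith [hstep A i k hA8])
  have h1 := RIE_conv (rho (r / 8)) J (RIE_rho_integrable hr8) (RIE_rho_nonneg _) (RIE_rho_int hr8) hJ B j
    (by
      intro A hA
      have h2 : Near r A := RIE_near_mono (by linarith) (RIE_rho_near hr8 hA)
      exact ⟨hB _ h2, hjn _ h2⟩)
  simp_rw [RIE_rho_prod] at key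
  rw [h1.1, hjn _ (RIE_near_one hr)] at key
  have h3 : (9 : ℝ≥0∞) * ENNReal.ofReal err = ENNReal.ofReal (9 * err) := by
    rw [ENNReal.ofReal_mul (by norm_num)]
    norm_num
  rw [h3, ← ENNReal.ofReal_add h1.2 (by positivity)] at key
  have h4 := (ENNReal.ofReal_le_ofReal_iff (by linarith [h1.2])).1 key
  linarith

/-- the value of the density near the unit matrix -/
noncomputable def RIE_p (r : ℝ) : ℝ := ((r / 8) ^ 2)⁻¹ * (∫ t, bmp t)⁻¹

theorem RIE_rho_const {r : ℝ} (hr : 0 < r) {A : M3} (hA : Near (r / 16) A) :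
    rho (r / 8) A = RIE_p r ^ 9 := by
  have hr8 : 0 < r / 8 := by positivity
  have h : ∀ i j, phr (r / 8) (A i j - one3 i j) = RIE_p r := by
    intro i j
    exact RIE_phr_const hr8 (by linarith [hA i j])
  unfold rho
  simp only [h, Finset.prod_const, Finset.card_univ, Fintype.card_fin]
  ring

/-- lower bound for the average -/
theorem RIE_low {r : ℝ} (hr : 0 < r) (G : M3 → ℝ≥0∞) (hG : Measurable G) (i k : Fin 3) :
    volume (ball (0 : ℂ) (r / 32)) * (ENNReal.ofReal (RIE_p r ^ 9) *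
      ∫⁻ A in {A : M3 | Near (r / 64) A}, G A) ≤
      ∫⁻ A : M3, ENNReal.ofReal (rho (r / 8) A) * ∫⁻ s in ball (0 : ℂ) (r / 32), G (adE A i k s) := by
  have hR : Measurable (fun A : M3 => ENNReal.ofReal (rho (r / 8) A)) :=
    (RIE_rho_cont (r / 8)).measurable.ennreal_ofReal
  have e1 : ∀ A : M3, ENNReal.ofReal (rho (r / 8) A) * ∫⁻ s in ball (0 : ℂ) (r / 32), G (adE A i k s) =
      ∫⁻ s in ball (0 : ℂ) (r / 32), ENNReal.ofReal (rho (r / 8) A) * G (adE A i k s) := by
    intro A
    rw [lintegral_const_mul' _ _ ENNReal.ofReal_ne_top]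
  simp_rw [e1]
  have hm : Measurable (Function.uncurry fun (A : M3) (s : ℂ) =>
      ENNReal.ofReal (rho (r / 8) A) * G (adE A i k s)) :=
    (hR.comp measurable_fst).mul (hG.comp (RIE_adE_cont i k).measurable)
  rw [lintegral_lintegral_swap hm.aemeasurable]
  have e2 : ∀ s ∈ ball (0 : ℂ) (r / 32), ENNReal.ofReal (RIE_p r ^ 9) *
      ∫⁻ A in {A : M3 | Near (r / 64) A}, G A ≤
      ∫⁻ A : M3, ENNReal.ofReal (rho (r / 8) A) * G (adE A i k s) := by
    intro s hs
    have hs1 : ‖s‖ < r / 32 := by rwa [mem_ball_zero_iff] at hs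
    let v : M3 := fun k' l' => if k' = i ∧ l' = k then s else 0
    have hv : ∀ A : M3, adE A i k s = A + v := fun A => rfl
    rw [← lintegral_sub_right_eq_self (fun A : M3 => ENNReal.ofReal (rho (r / 8) A) * G (adE A i k s)) v]
    have h1 : ∀ A : M3, adE (A - v) i k s = A := fun A => by
      rw [hv, sub_add_cancel]
    simp_rw [h1]
    rw [← lintegral_const_mul' _ _ ENNReal.ofReal_ne_top]
    calc ∫⁻ A in {A : M3 | Near (r / 64) A}, ENNReal.ofReal (RIE_p r ^ 9) * G A ≤
        ∫⁻ A in {A : M3 | Near (r / 64) A}, ENNReal.ofReal (rho (r / 8) (A - v)) * G A := by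
          refine setLIntegral_mono' (RIE_near_open _).measurableSet fun A hA => ?_
          have h2 : Near (r / 16) (A - v) := by
            have h3 : A - v = adE A i k (-s) := by
              funext k' l'
              show A k' l' - (if k' = i ∧ l' = k then s else 0) =
                A k' l' + if k' = i ∧ l' = k then -s else 0
              split_ifs <;> ring
            rw [h3]
            exact RIE_near_adE (a := r / 64) (b := r / 32) hA i k (by rwa [norm_neg]) (by linarith)
          rw [RIE_rho_const hr h2]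
      _ ≤ ∫⁻ A : M3, ENNReal.ofReal (rho (r / 8) (A - v)) * G A := setLIntegral_le_lintegral _ _
  calc volume (ball (0 : ℂ) (r / 32)) * (ENNReal.ofReal (RIE_p r ^ 9) *
      ∫⁻ A in {A : M3 | Near (r / 64) A}, G A) =
      ∫⁻ s in ball (0 : ℂ) (r / 32), ENNReal.ofReal (RIE_p r ^ 9) *
        ∫⁻ A in {A : M3 | Near (r / 64) A}, G A := by
        rw [setLIntegral_const, mul_comm]
    _ ≤ _ := setLIntegral_mono' measurableSet_ball e2

theorem RIE_two {r : ℝ} (hr : 0 < r) (J K : M3 → ℝ) (hJ : Measurable J) (hK : Measurable K)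
    (B err b : ℝ) (hB : ∀ A, Near r A → |J A| ≤ B) (hb : ∀ A, Near r A → J A ≤ b) (he : 0 ≤ err)
    (hK0 : ∀ A, Near r A → 0 ≤ K A) (cK : ℝ) (hKb : ∀ A, Near (r / 2) A → K A ≤ cK) (i k : Fin 3)
    (hstep : ∀ A, Near (r / 8) A → J A + (1 / 50) * (∫ s in ball (0 : ℂ) (r / 32), K (adE A i k s)) ≤
      (∫ s, phr (r / 8) s * J (adE A i k s)) + err) :
    volume (ball (0 : ℂ) (r / 32)) * (ENNReal.ofReal (RIE_p r ^ 9) *
      ∫⁻ A in {A : M3 | Near (r / 64) A}, ENNReal.ofReal (K A)) ≤
      ENNReal.ofReal (50 * (b + err - ∫ A, rho (r / 8) A * J A)) := by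
  have hr8 : 0 < r / 8 := by positivity
  refine (RIE_low hr (fun A => ENNReal.ofReal (K A)) hK.ennreal_ofReal i k).trans ?_
  have h1 : ∀ A, Near (r / 8) A → ∫⁻ s in ball (0 : ℂ) (r / 32), ENNReal.ofReal (K (adE A i k s)) ≤
      ENNReal.ofReal (50 * (b + err - J A)) := by
    intro A hA
    have hn : ∀ s ∈ ball (0 : ℂ) (r / 32), Near (r / 2) (adE A i k s) := by
      intro s hs
      rw [mem_ball_zero_iff] at hs
      exact RIE_near_adE hA i k hs (by linarith)
    have hmeas : Measurable fun s => K (adE A i k s) := hK.comp (RIE_adE_meas A i k)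
    have hint : IntegrableOn (fun s => K (adE A i k s)) (ball (0 : ℂ) (r / 32)) := by
      refine Measure.integrableOn_of_bounded (M := cK) measure_ball_lt_top.ne hmeas.aestronglyMeasurable ?_
      refine (ae_restrict_iff' measurableSet_ball).2 (Eventually.of_forall fun s hs => ?_)
      have h2 := hn s hs
      rw [Real.norm_eq_abs, abs_of_nonneg (hK0 _ (RIE_near_mono (by linarith) h2))]
      exact hKb _ h2
    rw [← ofReal_integral_eq_lintegral_ofReal hint]
    · refine ENNReal.ofReal_le_ofReal ?_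
      have h2 := hstep A hA
      have h3 : (∫ s, phr (r / 8) s * J (adE A i k s)) ≤ b := by
        have h4 : (∫ s, phr (r / 8) s * b) = b := by
          rw [integral_mul_const, RIE_phr_int hr8, one_mul]
        rw [← h4]
        have hph : Integrable (phr (r / 8)) := RIE_phr_integrable hr8
        refine integral_mono ?_ (hph.mul_const b) fun s => ?_
        · exact RIE_wint (phr (r / 8)) (fun s => J (adE A i k s)) hph (RIE_phr_nonneg _)
            (hJ.comp (RIE_adE_meas A i k)) B (fun s hs =>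
              hB _ (RIE_near_adE hA i k (RIE_phr_small hr8 hs) (by linarith)))
        · show phr (r / 8) s * J (adE A i k s) ≤ phr (r / 8) s * b
          by_cases hs : phr (r / 8) s = 0
          · rw [hs, zero_mul, zero_mul]
          · exact mul_le_mul_of_nonneg_left
              (hb _ (RIE_near_adE hA i k (RIE_phr_small hr8 hs) (by linarith))) (RIE_phr_nonneg _ _)
      linarith
    · refine (ae_restrict_iff' measurableSet_ball).2 (Eventually.of_forall fun s hs => ?_)
      exact hK0 _ (RIE_near_mono (by linarith) (hn s hs))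
  have hrho := RIE_rho_integrable hr8
  have h2 : ∀ A : M3, ENNReal.ofReal (rho (r / 8) A) *
      ∫⁻ s in ball (0 : ℂ) (r / 32), ENNReal.ofReal (K (adE A i k s)) ≤
      ENNReal.ofReal (rho (r / 8) A * (50 * (b + err - J A))) := by
    intro A
    by_cases h : rho (r / 8) A = 0
    · rw [h, ENNReal.ofReal_zero, zero_mul]
      exact zero_le
    · rw [ENNReal.ofReal_mul (RIE_rho_nonneg _ _)]
      exact mul_le_mul_right (h1 A (RIE_rho_near hr8 h)) _
  refine (lintegral_mono h2).trans ?_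
  have hrJ : Integrable (fun A => rho (r / 8) A * J A) :=
    RIE_wint (rho (r / 8)) J hrho (RIE_rho_nonneg _) hJ B
      (fun A hA => hB _ (RIE_near_mono (by linarith) (RIE_rho_near hr8 hA)))
  have h3 : ∀ A, rho (r / 8) A * (50 * (b + err - J A)) =
      50 * (b + err) * rho (r / 8) A - 50 * (rho (r / 8) A * J A) := by
    intro A
    ring
  have hI : Integrable (fun A => rho (r / 8) A * (50 * (b + err - J A))) := by
    simp_rw [h3]
    exact (hrho.const_mul _).sub (hrJ.const_mul _)
  have h0 : ∀ A : M3, 0 ≤ rho (r / 8) A * (50 * (b + err - J A)) := by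
    intro A
    by_cases h : rho (r / 8) A = 0
    · rw [h, zero_mul]
    · have h5 := hb A (RIE_near_mono (by linarith) (RIE_rho_near hr8 h))
      exact mul_nonneg (RIE_rho_nonneg _ _) (by linarith)
  rw [← ofReal_integral_eq_lintegral_ofReal hI (Eventually.of_forall h0)]
  refine ENNReal.ofReal_le_ofReal (le_of_eq ?_)
  simp_rw [h3]
  rw [integral_sub (hrho.const_mul _) (hrJ.const_mul _), integral_const_mul, integral_const_mul,
    RIE_rho_int hr8]
  ring

end Pool.Agent.P2
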