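import Pool.Agent.helper83.P2.SpecV

/-!
# Row p2:VBL (from RAD VIT VTR VQL VBK)
-/

set_option autoImplicit false

open scoped ContDiff Topology
open MeasureTheory Filter Set Metric MvPolynomial Pool.Agent.helper37.QA Pool.Agent.P2

namespace Pool.Agent.P2V

open Pool.Agent.P2

open Classical in
/-- the least `k` with `4 (1/2)^k ≤ ε` -/
noncomputable def VBL_k (ε : ℝ) : ℕ :=
  if h : ∃ k : ℕ, 4 * (1 / 2 : ℝ) ^ k ≤ ε then Nat.find h else 0

theorem VBL_ex {ε : ℝ} (hε : 0 < ε) : ∃ k : ℕ, 4 * (1 / 2 : ℝ) ^ k ≤ ε := by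
  obtain ⟨k, hk⟩ := exists_pow_lt_of_lt_one (show (0 : ℝ) < ε / 4 by positivity)
    (show (1 / 2 : ℝ) < 1 by norm_num)
  exact ⟨k, by linarith⟩

theorem VBL_k_spec {ε : ℝ} (hε : 0 < ε) : 4 * (1 / 2 : ℝ) ^ VBL_k ε ≤ ε := by
  classical
  unfold VBL_k
  rw [dif_pos (VBL_ex hε)]
  exact Nat.find_spec (VBL_ex hε)

theorem VBL_k_anti {ε1 ε : ℝ} (h1 : 0 < ε1) (h : ε1 ≤ ε) : VBL_k ε ≤ VBL_k ε1 := by
  classical
  have h2 := (VBL_k_spec h1).trans h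
  have h3 : VBL_k ε = Nat.find (VBL_ex (h1.trans_le h)) := by
    unfold VBL_k
    rw [dif_pos (VBL_ex (h1.trans_le h))]
  rw [h3]
  exact Nat.find_min' _ h2

theorem VBL (hRAD : RAD_stmt) (hVIT : VIT_stmt) (hVTR : VTR_stmt) (hVQL : VQL_stmt) (hVBK : VBK_stmt) :
    VBL_stmt := by
  intro d f Us K hd hcore
  obtain ⟨Kb, hKb, hB⟩ := hVBK d f Us K hd hcore
  obtain ⟨r, hr0, hr1, hR⟩ := hRAD.1 d f (Us 0) (hcore.trap 0)
  have hmono : ∀ J, Us J ⊆ Us 0 := by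
    intro J
    induction J with
    | zero => exact Subset.refl _
    | succ n ih => exact (subset_closure.trans (hcore.anti n)).trans ih
  refine ⟨1, Kb, one_pos, hKb, ?_⟩
  intro κ hκ0 hκ1
  obtain ⟨m0, J0, l0, hm0, hM⟩ := hB κ hκ0 hκ1
  obtain ⟨C, hC, hQ⟩ := hVQL d f (Us 0) κ hd hcore.good hκ0 hκ1
  refine ⟨fun ε => m0 (VBL_k ε), fun ε => J0 (VBL_k ε),
    fun ε => min ((1 / 2 : ℝ) ^ (l0 (VBL_k ε)) / 2) (r / 32), fun ε _ => ⟨hm0 _, ?_⟩, ?_⟩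
  · exact lt_min (by positivity) (by positivity)
  intro m1 J L0 M0 s1 ε1 hs1 hε1
  obtain ⟨l1, hl1⟩ := exists_pow_lt_of_lt_one hs1 (show (1 / 2 : ℝ) < 1 by norm_num)
  obtain ⟨L, N, Z, hL, hN, hZ, hmass, hun, hmain⟩ := hM m1 J L0 M0 l1 (VBL_k ε1)
  refine ⟨L, N, Z, hL, by omega, hZ, hmass, hun, ?_⟩
  intro ε s hε hs hs0 hJ n A hA1 hA2 m hm hmm
  have hεp : 0 < ε := hε1.trans_le hε
  have hsp : 0 < s := hs1.trans_le hs
  have hsa : s ≤ (1 / 2 : ℝ) ^ (l0 (VBL_k ε)) / 2 := hs0.trans (min_le_left _ _)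
  have hsb : s ≤ r / 32 := hs0.trans (min_le_right _ _)
  obtain ⟨l, hl2, hl3⟩ := exists_nat_pow_near_of_lt_one hsp (by linarith) (show (0 : ℝ) < 1 / 2 by norm_num)
    (show (1 / 2 : ℝ) < 1 by norm_num)
  have hl2' : (1 / 2 : ℝ) ^ l < 2 * s := by
    rw [pow_succ] at hl2
    linarith
  have hll1 : l ≤ l1 := by
    by_contra hlt
    have h1 : (1 / 2 : ℝ) ^ l ≤ (1 / 2 : ℝ) ^ l1 :=
      pow_le_pow_of_le_one (by norm_num) (by norm_num) (le_of_lt (not_le.1 hlt))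
    linarith
  have hl0l : l0 (VBL_k ε) ≤ l := by
    by_contra hlt
    have h1 : (1 / 2 : ℝ) ^ (l0 (VBL_k ε)) ≤ (1 / 2 : ℝ) ^ l :=
      pow_le_pow_of_le_one (by norm_num) (by norm_num) (le_of_lt (not_le.1 hlt))
    linarith
  have hF : ∀ i, Fam (fun z => It f i (Z z)) κ (A i) := fun i => ⟨hA1 i, hA2 i⟩
  have hmain2 := hmain (VBL_k ε) l (VBL_k_anti hε1 hε) hJ hl0l hll1 n A hF m hm hmm
  have hmass0 : 0 ≤ mass f N Z := (Nat.cast_nonneg M0).trans hmass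
  have hlp : (0 : ℝ) < (1 / 2) ^ l := by positivity
  have hZ0 : Dsc (Us 0) Z := by
    refine ⟨hZ.1, fun z hz => ?_⟩
    obtain ⟨h1, h2⟩ := hZ.2 z hz
    exact ⟨h1, hmono J h2⟩
  have hterm : ∀ i ∈ Finset.Ico 1 L, ((d : ℝ) ^ i * mass f N Z)⁻¹ * ∑ a : Fin (n i), eta ((A i a).g 0) ^ 2 *
      QR f m (1 * m) s (N - i) (A i a).ι (A i a).c κ (A i a).γ ≤
      4 * (((d : ℝ) ^ i * mass f N Z)⁻¹ * ∑ a : Fin (n i), eta ((A i a).g 0) ^ 2 *
        QR f m (1 * m) ((1 / 2 : ℝ) ^ l) (N - i) (A i a).ι (A i a).c κ (A i a).γ) := by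
    intro i hi
    obtain ⟨hi1, hiL⟩ := Finset.mem_Ico.1 hi
    have hY : Dsc (f.map '' closure (Us 0)) (fun z => It f i (Z z)) :=
      ((hVIT d f (Us 0) hd hcore.good i i le_rfl).2.2 Z hZ0).2.1 hi1
    have hterm2 : ∀ a : Fin (n i), eta ((A i a).g 0) ^ 2 *
        QR f m (1 * m) s (N - i) (A i a).ι (A i a).c κ (A i a).γ ≤
        4 * (eta ((A i a).g 0) ^ 2 *
          QR f m (1 * m) ((1 / 2 : ℝ) ^ l) (N - i) (A i a).ι (A i a).c κ (A i a).γ) := by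
      intro a
      obtain ⟨hca, hIa⟩ := hA1 i a
      have htube : ∀ v ∈ ball (0 : ℂ) (16 * (1 / 2 : ℝ) ^ l), ∀ z ∈ ball (0 : ℂ) 1,
          Av (A i a).ι v (fun z => It f i (Z z)) z ∈ cone (Us 0) := by
        intro v hv z hz
        rw [mem_ball_zero_iff] at hv
        refine hR _ ?_ _ (hY.2 z hz)
        intro i' j'
        have hvr : ‖v‖ < r := by linarith
        unfold adE
        split_ifs
        · have e : one3 i' j' + v - one3 i' j' = v := by ring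
          rw [e]
          exact hvr
        · rw [add_zero, sub_self, norm_zero]
          exact hr0
      have hV := hVTR d f (Us 0) hd hcore.good N (16 * (1 / 2 : ℝ) ^ l) κ (fun z => It f i (Z z)) (A i a).ι
        (A i a).c (A i a).g (A i a).γ (by positivity) hκ0 hY.1 htube hIa
      have hQa := hQ 1 ((1 / 2 : ℝ) ^ l) m (N - i) (A i a).ι (A i a).c (A i a).γ (by norm_num) hlp
        (by linarith) (by omega) hca hIa.2.2.1 (fun ξ hξ v hv => (hV.2.2 ξ hξ v hv).1)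
      have h1 := hQa.2.2.2 s hsp hl3 hl2'.le
      have h2 := mul_le_mul_of_nonneg_left h1 (sq_nonneg (eta ((A i a).g 0)))
      linarith
    have h3 : ∑ a : Fin (n i), eta ((A i a).g 0) ^ 2 *
        QR f m (1 * m) s (N - i) (A i a).ι (A i a).c κ (A i a).γ ≤
        4 * ∑ a : Fin (n i), eta ((A i a).g 0) ^ 2 *
          QR f m (1 * m) ((1 / 2 : ℝ) ^ l) (N - i) (A i a).ι (A i a).c κ (A i a).γ := by
      rw [Finset.mul_sum]
      exact Finset.sum_le_sum fun a _ => hterm2 a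
    have h4 : 0 ≤ ((d : ℝ) ^ i * mass f N Z)⁻¹ := by positivity
    have h5 := mul_le_mul_of_nonneg_left h3 h4
    linarith
  refine (Finset.sum_le_sum hterm).trans ?_
  rw [← Finset.mul_sum]
  have h6 : 4 * ((1 / 2 : ℝ) ^ VBL_k ε * m * L) ≤ ε * m * L := by
    have h7 := VBL_k_spec hεp
    have h8 : (0 : ℝ) ≤ (m : ℝ) * L := by positivity
    have h9 := mul_le_mul_of_nonneg_right h7 h8
    linarith
  linarith

end Pool.Agent.P2V
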