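import Pool.Agent.helper83.P2.SpecV
import Pool.Agent.helper80.P2.ENC
import Pool.Agent.helper43.P2.RIEb

/-!
# Row p2:VTR (translation between the disc and the tube)
-/

set_option autoImplicit false

open scoped ContDiff Topology
open MeasureTheory Filter Set Metric MvPolynomial Pool.Agent.helper37.QA Pool.Agent.P2

namespace Pool.Agent.P2V

open Pool.Agent.P2

section
variable {d : ℕ} (f : Endo 2 d) (N : ℕ)

theorem VTR_fd (a : ℂ) (W X : E3) (i : Fin 3) :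
    a * fderiv ℂ (fun W => It f N W i) (a • W) X = a ^ d ^ N * fderiv ℂ (fun W => It f N W i) W X := by
  have h1 : HasFDerivAt (fun W : E3 => a • W) (a • ContinuousLinearMap.id ℂ E3) W :=
    (hasFDerivAt_id W).const_smul a
  have h2 : HasFDerivAt (fun W => It f N W i) (fderiv ℂ (fun W => It f N W i) (a • W)) (a • W) :=
    (ENC_Itd f N i (a • W)).hasFDerivAt
  have h3 := h2.comp W h1
  have h4 : HasFDerivAt (fun W => a ^ d ^ N * It f N W i) (a ^ d ^ N • fderiv ℂ (fun W => It f N W i) W) W :=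
    (ENC_Itd f N i W).hasFDerivAt.const_mul _
  have e : ((fun W => It f N W i) ∘ fun W : E3 => a • W) = fun W => a ^ d ^ N * It f N W i := by
    funext W
    show It f N (a • W) i = _
    rw [ENC_Ithom]
    rfl
  rw [e] at h3
  have h5 := congrArg (fun L : E3 →L[ℂ] ℂ => L X) (h3.unique h4)
  have h6 : fderiv ℂ (fun W => It f N W i) (a • W) (a • X) =
      a ^ d ^ N * fderiv ℂ (fun W => It f N W i) W X := h5
  rw [map_smul, smul_eq_mul] at h6
  exact h6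

theorem VTR_cc_smul (a : ℂ) (W X : E3) :
    a * cc f N (a • W) X = a ^ (2 * d ^ N) * cc f N W X := by
  have h0 := VTR_fd f N a W X 0
  have h1 := VTR_fd f N a W X 1
  have e : ∀ i, It f N (a • W) i = a ^ d ^ N * It f N W i := fun i => by
    rw [ENC_Ithom]
    rfl
  unfold cc
  rw [e 0, e 1, two_mul, pow_add]
  linear_combination (a ^ d ^ N * It f N W 1) * h0 - (a ^ d ^ N * It f N W 0) * h1

theorem VTR_pq_smul (a : ℂ) (W : E3) :
    pq (It f N (a • W)) = Complex.normSq (a ^ d ^ N) * pq (It f N W) := by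
  rw [ENC_Ithom]
  unfold pq
  rw [Pi.smul_apply, Pi.smul_apply, smul_eq_mul, smul_eq_mul, Complex.normSq_mul, Complex.normSq_mul]
  ring

variable {f} {N}
variable {U : Set (PP 2)} {Ψ : E3 → ℝ} {B : ℝ}

theorem VTR_at (hG : Good0 f U) (hA : Adm f U N Ψ B) {W : E3} (hW : W ∈ cone U) :
    ContDiffAt ℝ 2 Ψ W := by
  have h : ContDiffAt ℝ ∞ Ψ W := hA.1.contDiffAt ((cone_open hG.1.1).mem_nhds hW)
  exact h.of_le ENat.LEInfty.out

theorem VTR_lev_pt (hG : Good0 f U) (hA : Adm f U N Ψ B) {W : E3} (hW : W ∈ cone U) {a : ℂ}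
    (ha : a ≠ 0) (V : E3) : lev Ψ (a • W) V = lev Ψ W (a⁻¹ • V) := by
  have h1 : (fun t : ℂ => Ψ (a • W + t • V)) =ᶠ[𝓝 0] fun t : ℂ => Ψ (W + t • (a⁻¹ • V)) := by
    have h2 : ContinuousAt (fun t : ℂ => W + t • (a⁻¹ • V)) 0 := by fun_prop
    have h3 : ∀ᶠ t : ℂ in 𝓝 0, W + t • (a⁻¹ • V) ∈ cone U := by
      apply h2.eventually_mem
      rw [zero_smul, add_zero]
      exact (cone_open hG.1.1).mem_nhds hW
    filter_upwards [h3] with t ht
    rw [← hA.2.2.1 _ ht a ha]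
    congr 1
    rw [smul_add, smul_comm t, smul_smul, mul_inv_cancel₀ ha, one_smul]
  unfold lev lap
  rw [(h1.iteratedFDeriv ℝ 2).eq_of_nhds]

theorem VTR_en_smul (hG : Good0 f U) (hA : Adm f U N Ψ B) {W : E3} (hW : W ∈ cone U) {a : ℂ}
    (ha : a ≠ 0) (X Y : E3) :
    Complex.normSq a ^ 2 * en f N Ψ (a • W) X Y = en f N Ψ W X Y := by
  unfold en
  have hn : Complex.normSq a ≠ 0 := (Complex.normSq_pos.2 ha).ne'
  have hV : a⁻¹ • (cc f N (a • W) X • Y - cc f N (a • W) Y • X) =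
      (a ^ (2 * d ^ N) * a⁻¹ * a⁻¹) • (cc f N W X • Y - cc f N W Y • X) := by
    have e1 : cc f N (a • W) X = a⁻¹ * (a ^ (2 * d ^ N) * cc f N W X) := by
      rw [← VTR_cc_smul, inv_mul_cancel_left₀ ha]
    have e2 : cc f N (a • W) Y = a⁻¹ * (a ^ (2 * d ^ N) * cc f N W Y) := by
      rw [← VTR_cc_smul, inv_mul_cancel_left₀ ha]
    rw [e1, e2]
    funext i
    simp only [Pi.smul_apply, Pi.sub_apply, smul_eq_mul]
    ring
  rw [VTR_lev_pt hG hA hW ha, hV, ENC_lev_smul Ψ W _ (VTR_at hG hA hW), VTR_pq_smul]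
  rw [Complex.normSq_mul, Complex.normSq_mul, Complex.normSq_inv]
  have e3 : Complex.normSq (a ^ (2 * d ^ N)) = Complex.normSq (a ^ d ^ N) ^ 2 := by
    rw [two_mul, pow_add, Complex.normSq_mul, sq]
  have hn2 : Complex.normSq (a ^ d ^ N) ≠ 0 := (Complex.normSq_pos.2 (pow_ne_zero _ ha)).ne'
  rw [e3]
  have e4 : (2 * (d : ℝ) ^ N * (Complex.normSq (a ^ d ^ N) * pq (It f N W)) ^ 2) =
      Complex.normSq (a ^ d ^ N) ^ 2 * (2 * (d : ℝ) ^ N * pq (It f N W) ^ 2) := by ring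
  have e5 : Complex.normSq a ^ 2 * (Complex.normSq (a ^ d ^ N) ^ 2 * (Complex.normSq a)⁻¹ *
      (Complex.normSq a)⁻¹ * lev Ψ W (cc f N W X • Y - cc f N W Y • X) /
        (2 * (d : ℝ) ^ N * (Complex.normSq (a ^ d ^ N) * pq (It f N W)) ^ 2)) =
      (Complex.normSq (a ^ d ^ N) ^ 2 * lev Ψ W (cc f N W X • Y - cc f N W Y • X)) /
        (Complex.normSq (a ^ d ^ N) ^ 2 * (2 * (d : ℝ) ^ N * pq (It f N W) ^ 2)) := by
    rw [e4]
    field_simp
  rw [e5, mul_div_mul_left _ _ (pow_ne_zero 2 hn2)]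

theorem VTR_en_nonneg (hA : Adm f U N Ψ B) {W : E3} (hW : W ∈ cone U) (X Y : E3) :
    0 ≤ en f N Ψ W X Y := by
  unfold en
  have h : cc f N W (cc f N W X • Y - cc f N W Y • X) = 0 := by
    rw [RIE_cc_lin]
    ring
  exact div_nonneg (hA.2.2.2 W hW _ h) (by positivity)

end

section gp
variable {ι : Fin 2} {c : ℂ} {κ : ℝ} {γ : ℂ → ℂ}

theorem VTR_gp_e (ξ v : ℂ) : gp ι c κ γ (ξ, v) ι.castSucc = 1 := by
  unfold gp cht
  fin_cases ι <;> simp

theorem VTR_gp_o (ξ v : ℂ) : gp ι c κ γ (ξ, v) (1 - ι).castSucc = c + κ * ξ := by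
  unfold gp cht
  fin_cases ι <;> simp

theorem VTR_Av {Y : ℂ → E3} {z a ξ : ℂ} (h : Y z = a • gp ι c κ γ (ξ, 0)) (v : ℂ) :
    Av ι v Y z = a • gp ι c κ γ (ξ, v) := by
  unfold Av
  rw [h]
  unfold mv adE one3 gp cht
  funext k
  fin_cases ι <;> fin_cases k <;> simp [Fin.sum_univ_three] <;> ring

theorem VTR_gp_diff (hγ : DifferentiableOn ℂ γ (ball 0 1)) {ξ : ℂ} (hξ : ξ ∈ ball (0 : ℂ) 1) (v : ℂ) :
    DifferentiableAt ℂ (gp ι c κ γ) (ξ, v) := by
  have h1 : DifferentiableAt ℂ (fun p : ℂ × ℂ => p.1) (ξ, v) := differentiableAt_fst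
  have h2 : DifferentiableAt ℂ (fun p : ℂ × ℂ => p.2) (ξ, v) := differentiableAt_snd
  have h3 : DifferentiableAt ℂ (fun p : ℂ × ℂ => γ p.1) (ξ, v) :=
    DifferentiableAt.comp (ξ, v) (hγ.differentiableAt (isOpen_ball.mem_nhds hξ)) h1
  have h4 : DifferentiableAt ℂ (fun p : ℂ × ℂ => c + κ * p.1) (ξ, v) := (h1.const_mul _).const_add _
  have h5 : DifferentiableAt ℂ (fun p : ℂ × ℂ => γ p.1 + p.2) (ξ, v) := h3.add h2
  rw [differentiableAt_pi]
  intro k
  unfold gp cht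
  fin_cases ι <;> fin_cases k
  · exact differentiableAt_const _
  · exact h4
  · exact h5
  · exact h4
  · exact differentiableAt_const _
  · exact h5

theorem VTR_gp_two (hγ : DifferentiableOn ℂ γ (ball 0 1)) {ξ : ℂ} (hξ : ξ ∈ ball (0 : ℂ) 1) (v : ℂ) :
    fderiv ℂ (gp ι c κ γ) (ξ, v) (0, 1) = Pi.single 2 1 := by
  have h1 : HasDerivAt (fun t : ℂ => ((ξ, v) : ℂ × ℂ) + t • ((0, 1) : ℂ × ℂ)) (0, 1) 0 := by
    have h := ((hasDerivAt_id (0 : ℂ)).smul_const ((0, 1) : ℂ × ℂ)).const_add (ξ, v)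
    rwa [one_smul] at h
  have h2 : HasDerivAt (fun t : ℂ => gp ι c κ γ ((ξ, v) + t • ((0, 1) : ℂ × ℂ)))
      (fderiv ℂ (gp ι c κ γ) (ξ, v) (0, 1)) 0 := by
    have h3 : HasFDerivAt (gp ι c κ γ) (fderiv ℂ (gp ι c κ γ) (ξ, v)) ((ξ, v) + (0 : ℂ) • ((0, 1) : ℂ × ℂ)) := by
      rw [zero_smul, add_zero]
      exact (VTR_gp_diff hγ hξ v).hasFDerivAt
    exact h3.comp_hasDerivAt 0 h1
  have e : (fun t : ℂ => gp ι c κ γ ((ξ, v) + t • ((0, 1) : ℂ × ℂ))) =
      fun t : ℂ => gp ι c κ γ (ξ, v) + t • (Pi.single 2 1 : E3) := by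
    funext t k
    unfold gp cht
    fin_cases ι <;> fin_cases k <;> simp [add_assoc]
  have h4 : HasDerivAt (fun t : ℂ => gp ι c κ γ (ξ, v) + t • (Pi.single 2 1 : E3)) (Pi.single 2 1) 0 := by
    have h := ((hasDerivAt_id (0 : ℂ)).smul_const (Pi.single 2 1 : E3)).const_add (gp ι c κ γ (ξ, v))
    rwa [one_smul] at h
  rw [e] at h2
  exact h2.unique h4

theorem VTR_chain {d : ℕ} (f : Endo 2 d) (N : ℕ) (hγ : DifferentiableOn ℂ γ (ball 0 1)) {ξ : ℂ}
    (hξ : ξ ∈ ball (0 : ℂ) 1) (v : ℂ) (a : ℂ × ℂ) :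
    gQ f N ι c κ γ (ξ, v) * fderiv ℂ (gP f N ι c κ γ) (ξ, v) a -
      gP f N ι c κ γ (ξ, v) * fderiv ℂ (gQ f N ι c κ γ) (ξ, v) a =
      cc f N (gp ι c κ γ (ξ, v)) (fderiv ℂ (gp ι c κ γ) (ξ, v) a) := by
  have h : ∀ i : Fin 3, fderiv ℂ (fun p => It f N (gp ι c κ γ p) i) (ξ, v) a =
      fderiv ℂ (fun W => It f N W i) (gp ι c κ γ (ξ, v)) (fderiv ℂ (gp ι c κ γ) (ξ, v) a) := by
    intro i
    have h1 : HasFDerivAt (fun W => It f N W i)
        (fderiv ℂ (fun W => It f N W i) (gp ι c κ γ (ξ, v))) (gp ι c κ γ (ξ, v)) :=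
      (ENC_Itd f N i _).hasFDerivAt
    have h2 := h1.comp (ξ, v) (VTR_gp_diff (c := c) (κ := κ) (ι := ι) hγ hξ v).hasFDerivAt
    have h3 := h2.fderiv
    have h4 := congrArg (fun L : ℂ × ℂ →L[ℂ] ℂ => L a) h3
    exact h4
  have h0 := h 0
  have h1 := h 1
  unfold cc
  rw [← h0, ← h1]
  rfl

end gp

theorem VTR (hCHN : CHN_stmt) (hENC : ENC_stmt) : VTR_stmt := by
  intro d f U hd hG N r κ Y ι c g γ hr hκ hY hU hI
  obtain ⟨hg, hgb, hγ, hIa⟩ := hI
  have hYk : ∀ k : Fin 3, DifferentiableOn ℂ (fun z => Y z k) (ball 0 1) := fun k =>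
    differentiableOn_pi.1 hY k
  obtain ⟨a, ha⟩ : ∃ a : ℂ → ℂ, a = fun ξ => Y (g ξ) ι.castSucc := ⟨_, rfl⟩
  have hYa : ∀ ξ ∈ ball (0 : ℂ) 1, a ξ ≠ 0 ∧ Y (g ξ) = a ξ • gp ι c κ γ (ξ, 0) := by
    intro ξ hξ
    obtain ⟨b, hb, h1⟩ := hIa ξ hξ
    have h2 : a ξ = b := by
      rw [ha]
      show Y (g ξ) ι.castSucc = b
      rw [h1, Pi.smul_apply, VTR_gp_e, smul_eq_mul, mul_one]
    rw [h2]
    exact ⟨hb, h1⟩
  have hYo : ∀ ξ ∈ ball (0 : ℂ) 1, Y (g ξ) (1 - ι).castSucc = a ξ * (c + κ * ξ) := by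
    intro ξ hξ
    rw [(hYa ξ hξ).2, Pi.smul_apply, VTR_gp_o, smul_eq_mul]
  have hκ' : (κ : ℂ) ≠ 0 := Complex.ofReal_ne_zero.2 hκ.ne'
  have hgd : ∀ ξ ∈ ball (0 : ℂ) 1, HasDerivAt g (deriv g ξ) ξ := fun ξ hξ =>
    (hg.differentiableAt (isOpen_ball.mem_nhds hξ)).hasDerivAt
  have hYd : ∀ k : Fin 3, ∀ z ∈ ball (0 : ℂ) 1, HasDerivAt (fun z => Y z k) (deriv (fun z => Y z k) z) z :=
    fun k z hz => ((hYk k).differentiableAt (isOpen_ball.mem_nhds hz)).hasDerivAt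
  have had : ∀ ξ ∈ ball (0 : ℂ) 1, HasDerivAt a (deriv (fun z => Y z ι.castSucc) (g ξ) * deriv g ξ) ξ := by
    intro ξ hξ
    rw [ha]
    exact (hYd ι.castSucc (g ξ) (hgb ξ hξ)).comp ξ (hgd ξ hξ)
  refine ⟨?_, ?_, ?_⟩
  · intro ξ hξ ξ' hξ' h
    have h1 : a ξ = a ξ' := by
      rw [ha]
      show Y (g ξ) ι.castSucc = Y (g ξ') ι.castSucc
      rw [h]
    have h2 := hYo ξ hξ
    have h3 := hYo ξ' hξ'
    rw [h, h3, h1] at h2
    have h4 := mul_left_cancel₀ (hYa ξ' hξ').1 h2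
    have h5 := add_left_cancel h4
    exact (mul_left_cancel₀ hκ' h5).symm
  · intro ξ hξ h0
    have h1 : HasDerivAt (fun ξ => Y (g ξ) (1 - ι).castSucc)
        (deriv (fun z => Y z (1 - ι).castSucc) (g ξ) * deriv g ξ) ξ :=
      (hYd (1 - ι).castSucc (g ξ) (hgb ξ hξ)).comp ξ (hgd ξ hξ)
    have h2 : HasDerivAt (fun ξ => a ξ * (c + κ * ξ))
        (deriv (fun z => Y z ι.castSucc) (g ξ) * deriv g ξ * (c + κ * ξ) + a ξ * (κ * 1)) ξ :=
      (had ξ hξ).mul (((hasDerivAt_id ξ).const_mul (κ : ℂ)).const_add c)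
    have h3 : (fun ξ => Y (g ξ) (1 - ι).castSucc) =ᶠ[𝓝 ξ] fun ξ => a ξ * (c + κ * ξ) := by
      filter_upwards [isOpen_ball.mem_nhds hξ] with x hx
      exact hYo x hx
    have h4 := h1.unique (h2.congr_of_eventuallyEq h3)
    rw [h0, mul_zero, mul_zero, zero_mul, zero_add, mul_one] at h4
    exact mul_ne_zero (hYa ξ hξ).1 hκ' h4.symm
  · intro ξ hξ v hv
    obtain ⟨haξ, hYξ⟩ := hYa ξ hξ
    have hAv : Av ι v Y (g ξ) = a ξ • gp ι c κ γ (ξ, v) := VTR_Av hYξ v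
    have hAU : a ξ • gp ι c κ γ (ξ, v) ∈ cone U := by
      rw [← hAv]
      exact hU v hv (g ξ) (hgb ξ hξ)
    have hGU : gp ι c κ γ (ξ, v) ∈ cone U := by
      have h1 := cone_smul hAU (inv_ne_zero haξ)
      rwa [smul_smul, inv_mul_cancel₀ haξ, one_smul] at h1
    -- derivative of the translate
    obtain ⟨A', hA'⟩ : ∃ A', A' = mv (adE one3 2 ι.castSucc v) (deriv Y (g ξ)) := ⟨_, rfl⟩
    have hAd : HasDerivAt (Av ι v Y) A' (g ξ) := by
      rw [hA']
      exact RIE_mv_deriv (hY.differentiableAt (isOpen_ball.mem_nhds (hgb ξ hξ))) _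
    obtain ⟨G1, hG1⟩ : ∃ G1, G1 = fderiv ℂ (gp ι c κ γ) (ξ, v) (1, 0) := ⟨_, rfl⟩
    have hGd : HasDerivAt (fun x => gp ι c κ γ (x, v)) G1 ξ := by
      have h1 : HasDerivAt (fun x : ℂ => ((x, v) : ℂ × ℂ)) (1, 0) ξ :=
        (hasDerivAt_id ξ).prodMk (hasDerivAt_const ξ v)
      rw [hG1]
      exact (VTR_gp_diff hγ hξ v).hasFDerivAt.comp_hasDerivAt ξ h1
    obtain ⟨a', ha'⟩ : ∃ a', a' = deriv (fun z => Y z ι.castSucc) (g ξ) * deriv g ξ := ⟨_, rfl⟩
    have hrel : deriv g ξ • A' = a ξ • G1 + a' • gp ι c κ γ (ξ, v) := by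
      have h1 : HasDerivAt (fun x => Av ι v Y (g x)) (deriv g ξ • A') ξ :=
        HasDerivAt.scomp ξ hAd (hgd ξ hξ)
      have h2 : HasDerivAt (fun x => a x • gp ι c κ γ (x, v)) (a ξ • G1 + a' • gp ι c κ γ (ξ, v)) ξ := by
        have h3 := had ξ hξ
        rw [← ha'] at h3
        exact h3.smul hGd
      have h3 : (fun x => Av ι v Y (g x)) =ᶠ[𝓝 ξ] fun x => a x • gp ι c κ γ (x, v) := by
        filter_upwards [isOpen_ball.mem_nhds hξ] with x hx
        exact VTR_Av (hYa x hx).2 v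
      exact h1.unique (h2.congr_of_eventuallyEq h3)
    have hw1 : w1 (gP f N ι c κ γ) (gQ f N ι c κ γ) (ξ, v) = cc f N (gp ι c κ γ (ξ, v)) G1 := by
      rw [hG1]
      exact VTR_chain f N hγ hξ v (1, 0)
    have hw2 : w2 (gP f N ι c κ γ) (gQ f N ι c κ γ) (ξ, v) =
        cc f N (gp ι c κ γ (ξ, v)) (Pi.single 2 1) := by
      have h1 := VTR_chain (ι := ι) (c := c) (κ := κ) f N hγ hξ v (0, 1)
      rw [VTR_gp_two hγ hξ v] at h1
      exact h1
    have hom' : om (gP f N ι c κ γ) (gQ f N ι c κ γ) (ξ, v) = (pq (It f N (gp ι c κ γ (ξ, v))) ^ 2)⁻¹ := rfl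
    generalize hGG : gp ι c κ γ (ξ, v) = G at *
    have hna : Complex.normSq (a ξ) ≠ 0 := (Complex.normSq_pos.2 haξ).ne'
    refine ⟨hGU, ?_, ?_⟩
    · -- the density
      have h1 : tau f N (Av ι v Y) (g ξ) = RIE_T f N (Av ι v Y (g ξ)) A' := by
        have h := RIE_tau f N (hY.differentiableAt (isOpen_ball.mem_nhds (hgb ξ hξ)))
          (adE one3 2 ι.castSucc v)
        rw [hA']
        exact h
      rw [h1, hAv]
      have h2 : deriv g ξ * cc f N (a ξ • G) A' = a ξ * cc f N (a ξ • G) G1 := by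
        have h3 : cc f N (a ξ • G) (deriv g ξ • A') = deriv g ξ * cc f N (a ξ • G) A' := by
          rw [ENC_cc, ENC_cc]
          simp only [Pi.smul_apply, smul_eq_mul]
          ring
        have h4 : cc f N (a ξ • G) (a ξ • G1 + a' • G) =
            a ξ * cc f N (a ξ • G) G1 + a' * cc f N (a ξ • G) G := by
          rw [ENC_cc, ENC_cc, ENC_cc]
          simp only [Pi.smul_apply, Pi.add_apply, smul_eq_mul]
          ring
        have h5 : cc f N (a ξ • G) G = 0 := by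
          have h6 := VTR_cc_smul f N (a ξ) G G
          rw [ENC_cc_self, mul_zero] at h6
          exact (mul_eq_zero.1 h6).resolve_left haξ
        rw [← h3, hrel, h4, h5, mul_zero, add_zero]
      have h7 : deriv g ξ * cc f N (a ξ • G) A' = a ξ ^ (2 * d ^ N) * cc f N G G1 := by
        rw [h2, VTR_cc_smul]
      have h8 : Complex.normSq (cc f N (a ξ • G) A') * Complex.normSq (deriv g ξ) =
          Complex.normSq (a ξ ^ d ^ N) ^ 2 * Complex.normSq (cc f N G G1) := by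
        have h9 := congrArg Complex.normSq h7
        rw [Complex.normSq_mul, Complex.normSq_mul] at h9
        rw [mul_comm, h9, two_mul, pow_add, Complex.normSq_mul, sq]
      have hn2 : Complex.normSq (a ξ ^ d ^ N) ^ 2 ≠ 0 :=
        pow_ne_zero 2 (Complex.normSq_pos.2 (pow_ne_zero _ haξ)).ne'
      unfold RIE_T gt ta1
      rw [hw1, hom', VTR_pq_smul]
      calc (1 / 2) * Complex.normSq (cc f N (a ξ • G) A') / (Complex.normSq (a ξ ^ d ^ N) * pq (It f N G)) ^ 2 /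
            (d : ℝ) ^ N * Complex.normSq (deriv g ξ) =
          ((1 / 2) * (Complex.normSq (cc f N (a ξ • G) A') * Complex.normSq (deriv g ξ))) /
            (Complex.normSq (a ξ ^ d ^ N) ^ 2 * pq (It f N G) ^ 2) / (d : ℝ) ^ N := by
            rw [mul_pow]
            ring
        _ = (Complex.normSq (a ξ ^ d ^ N) ^ 2 * ((1 / 2) * Complex.normSq (cc f N G G1))) /
            (Complex.normSq (a ξ ^ d ^ N) ^ 2 * pq (It f N G) ^ 2) / (d : ℝ) ^ N := by
            rw [h8]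
            ring
        _ = (1 / 2) * Complex.normSq (cc f N G G1) / pq (It f N G) ^ 2 / (d : ℝ) ^ N := by
            rw [mul_div_mul_left _ _ hn2]
        _ = _ := by
            rw [div_eq_mul_inv ((1 / 2) * Complex.normSq (cc f N G G1)) (pq (It f N G) ^ 2)]
    · intro Ψ B hA
      have hGn : Gn f N Ψ ι v Y (g ξ) = en f N Ψ (a ξ • G) (Pi.single 2 (a ξ)) A' := by
        unfold Gn
        rw [hAv, hA', ha]
      refine ⟨?_, ?_, ?_⟩
      · rw [hAv]
        exact hA.2.2.1 G hGU (a ξ) haξ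
      · rw [hGn]
        exact VTR_en_nonneg hA hAU _ _
      · rw [hGn]
        have hE := (hENC d f U N Ψ B hd hG hA _ hAU).1
        have h1 : en f N Ψ (a ξ • G) (Pi.single 2 (a ξ)) A' * Complex.normSq (deriv g ξ) =
            Complex.normSq (a ξ) ^ 2 * en f N Ψ (a ξ • G) (Pi.single 2 1) G1 := by
          rw [hE, hE]
          have hk : ∀ k, deriv g ξ * A' k = a ξ * G1 k + a' * G k := fun k => congrFun hrel k
          have h2 : deriv g ξ * ((a ξ • G) ⬝ᵥ crs (Pi.single 2 (a ξ)) A') =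
              a ξ ^ 2 * ((a ξ • G) ⬝ᵥ crs (Pi.single 2 1) G1) := by
            unfold crs
            simp only [dotProduct, Fin.sum_univ_three, Pi.smul_apply, smul_eq_mul, Pi.single_apply]
            simp
            linear_combination (-(a ξ * G 0 * a ξ)) * hk 1 + (a ξ * G 1 * a ξ) * hk 0
          have h3 := congrArg Complex.normSq h2
          rw [Complex.normSq_mul, Complex.normSq_mul, map_pow] at h3
          calc Complex.normSq ((a ξ • G) ⬝ᵥ crs (Pi.single 2 (a ξ)) A') * ed f N Ψ (a ξ • G) *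
                Complex.normSq (deriv g ξ) =
              (Complex.normSq (deriv g ξ) * Complex.normSq ((a ξ • G) ⬝ᵥ crs (Pi.single 2 (a ξ)) A')) *
                ed f N Ψ (a ξ • G) := by ring
            _ = _ := by
                rw [h3]
                ring
        rw [h1, VTR_en_smul hG hA hGU haξ]
        unfold Ge en
        have hΩ : IsOpen {p : ℂ × ℂ | p.1 ∈ ball (0 : ℂ) 1} := isOpen_ball.preimage continuous_fst
        have hgpd : DifferentiableOn ℂ (gp ι c κ γ) {p : ℂ × ℂ | p.1 ∈ ball (0 : ℂ) 1} := by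
          rintro ⟨x, y⟩ hp
          exact (VTR_gp_diff hγ hp y).differentiableWithinAt
        have hat := VTR_at hG hA hGU
        have h4 : lev (fun p => Ψ (gp ι c κ γ p)) (ξ, v) (ev (gP f N ι c κ γ) (gQ f N ι c κ γ) (ξ, v)) =
            lev Ψ G (fderiv ℂ (gp ι c κ γ) (ξ, v) (ev (gP f N ι c κ γ) (gQ f N ι c κ γ) (ξ, v))) := by
          have h5 := hCHN.1 _ (gp ι c κ γ) Ψ (ξ, v) (ev (gP f N ι c κ γ) (gQ f N ι c κ γ) (ξ, v)) hΩ hgpd hξ
            (by rw [hGG]; exact hat)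
          rw [hGG] at h5
          exact h5
        have h6 : fderiv ℂ (gp ι c κ γ) (ξ, v) (ev (gP f N ι c κ γ) (gQ f N ι c κ γ) (ξ, v)) =
            (-1 : ℂ) • (cc f N G (Pi.single 2 1) • G1 - cc f N G G1 • (Pi.single 2 1 : E3)) := by
          have h7 : ev (gP f N ι c κ γ) (gQ f N ι c κ γ) (ξ, v) =
              (-(cc f N G (Pi.single 2 1))) • ((1, 0) : ℂ × ℂ) + (cc f N G G1) • ((0, 1) : ℂ × ℂ) := by
            unfold Pool.Agent.P2.ev
            rw [hw1, hw2]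
            ext <;> simp
          rw [h7, map_add, map_smul, map_smul, VTR_gp_two hγ hξ v, ← hG1]
          funext k
          simp only [Pi.add_apply, Pi.smul_apply, Pi.sub_apply, smul_eq_mul]
          ring
        rw [h4, h6, ENC_lev_smul Ψ G _ hat, hom', Complex.normSq_neg, map_one, one_mul]
        rw [mul_comm (2 * (d : ℝ) ^ N), ← div_div, div_eq_mul_inv _ (pq (It f N G) ^ 2)]

end Pool.Agent.P2V
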